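import Pool.Agent.Lib.MP_a4658c_nt.B9.Chk

namespace B9

theorem b_0 : blk t5 8 (256 * 0) = true := by decide +kernel

theorem b_1 : blk t5 8 (256 * 1) = true := by decide +kernel

theorem b_2 : blk t5 8 (256 * 2) = true := by decide +kernel

theorem b_3 : blk t5 8 (256 * 3) = true := by decide +kernel

theorem b_4 : blk t5 8 (256 * 4) = true := by decide +kernel

theorem b_5 : blk t5 8 (256 * 5) = true := by decide +kernel

theorem b_6 : blk t5 8 (256 * 6) = true := by decide +kernel

theorem b_7 : blk t5 8 (256 * 7) = true := by decide +kernel

theorem b_8 : blk t5 8 (256 * 8) = true := by decide +kernel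

theorem b_9 : blk t5 8 (256 * 9) = true := by decide +kernel

theorem b_10 : blk t5 8 (256 * 10) = true := by decide +kernel

theorem b_11 : blk t5 8 (256 * 11) = true := by decide +kernel

theorem b_12 : blk t5 8 (256 * 12) = true := by decide +kernel

theorem b_13 : blk t5 8 (256 * 13) = true := by decide +kernel

theorem b_14 : blk t5 8 (256 * 14) = true := by decide +kernel

theorem b_15 : blk t5 8 (256 * 15) = true := by decide +kernel

theorem b_16 : blk t5 8 (256 * 16) = true := by decide +kernel

end B9
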