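import Pool.Agent.Lib.MP_a4658c_nt.B9.Chk

namespace B9

theorem b_17 : blk t5 8 (256 * 17) = true := by decide +kernel

theorem b_18 : blk t5 8 (256 * 18) = true := by decide +kernel

theorem b_19 : blk t5 8 (256 * 19) = true := by decide +kernel

theorem b_20 : blk t5 8 (256 * 20) = true := by decide +kernel

theorem b_21 : blk t5 8 (256 * 21) = true := by decide +kernel

theorem b_22 : blk t5 8 (256 * 22) = true := by decide +kernel

theorem b_23 : blk t5 8 (256 * 23) = true := by decide +kernel

theorem b_24 : blk t5 8 (256 * 24) = true := by decide +kernel

theorem b_25 : blk t5 8 (256 * 25) = true := by decide +kernel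

theorem b_26 : blk t5 8 (256 * 26) = true := by decide +kernel

theorem b_27 : blk t5 8 (256 * 27) = true := by decide +kernel

theorem b_28 : blk t5 8 (256 * 28) = true := by decide +kernel

theorem b_29 : blk t5 8 (256 * 29) = true := by decide +kernel

theorem b_30 : blk t5 8 (256 * 30) = true := by decide +kernel

theorem b_31 : blk t5 8 (256 * 31) = true := by decide +kernel

theorem b_32 : blk t5 8 (256 * 32) = true := by decide +kernel

theorem b_33 : blk t5 8 (256 * 33) = true := by decide +kernel

end B9
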