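import Pool.Agent.Lib.MP_a4658c_nt.B9.Chk

namespace B9

theorem b_34 : blk t5 8 (256 * 34) = true := by decide +kernel

theorem b_35 : blk t5 8 (256 * 35) = true := by decide +kernel

theorem b_36 : blk t5 8 (256 * 36) = true := by decide +kernel

theorem b_37 : blk t5 8 (256 * 37) = true := by decide +kernel

theorem b_38 : blk t5 8 (256 * 38) = true := by decide +kernel

theorem b_39 : blk t5 8 (256 * 39) = true := by decide +kernel

theorem b_40 : blk t5 8 (256 * 40) = true := by decide +kernel

theorem b_41 : blk t5 8 (256 * 41) = true := by decide +kernel

theorem b_42 : blk t5 8 (256 * 42) = true := by decide +kernel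

theorem b_43 : blk t5 8 (256 * 43) = true := by decide +kernel

theorem b_44 : blk t5 8 (256 * 44) = true := by decide +kernel

theorem b_45 : blk t5 8 (256 * 45) = true := by decide +kernel

theorem b_46 : blk t5 8 (256 * 46) = true := by decide +kernel

theorem b_47 : blk t5 8 (256 * 47) = true := by decide +kernel

theorem b_48 : blk t5 8 (256 * 48) = true := by decide +kernel

theorem b_49 : blk t5 8 (256 * 49) = true := by decide +kernel

theorem b_50 : blk t5 8 (256 * 50) = true := by decide +kernel

end B9
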