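import Pool.Agent.Lib.MP_a4658c_nt.B9.Chk

namespace B9

theorem b_51 : blk t5 8 (256 * 51) = true := by decide +kernel

theorem b_52 : blk t5 8 (256 * 52) = true := by decide +kernel

theorem b_53 : blk t5 8 (256 * 53) = true := by decide +kernel

theorem b_54 : blk t5 8 (256 * 54) = true := by decide +kernel

theorem b_55 : blk t5 8 (256 * 55) = true := by decide +kernel

theorem b_56 : blk t5 8 (256 * 56) = true := by decide +kernel

theorem b_57 : blk t5 8 (256 * 57) = true := by decide +kernel

theorem b_58 : blk t5 8 (256 * 58) = true := by decide +kernel

theorem b_59 : blk t5 8 (256 * 59) = true := by decide +kernel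

theorem b_60 : blk t5 8 (256 * 60) = true := by decide +kernel

theorem b_61 : blk t5 8 (256 * 61) = true := by decide +kernel

theorem b_62 : blk t5 8 (256 * 62) = true := by decide +kernel

theorem b_63 : blk t5 8 (256 * 63) = true := by decide +kernel

theorem b_64 : blk t5 8 (256 * 64) = true := by decide +kernel

theorem b_65 : blk t5 8 (256 * 65) = true := by decide +kernel

theorem b_66 : blk t5 8 (256 * 66) = true := by decide +kernel

theorem b_67 : blk t5 8 (256 * 67) = true := by decide +kernel

end B9
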