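import Pool.Agent.Lib.MP_a4658c_nt.B9.Chk

namespace B9

theorem b_68 : blk t5 8 (256 * 68) = true := by decide +kernel

theorem b_69 : blk t5 8 (256 * 69) = true := by decide +kernel

theorem b_70 : blk t5 8 (256 * 70) = true := by decide +kernel

theorem b_71 : blk t5 8 (256 * 71) = true := by decide +kernel

theorem b_72 : blk t5 8 (256 * 72) = true := by decide +kernel

theorem b_73 : blk t5 8 (256 * 73) = true := by decide +kernel

theorem b_74 : blk t5 8 (256 * 74) = true := by decide +kernel

theorem b_75 : blk t5 8 (256 * 75) = true := by decide +kernel

theorem b_76 : blk t5 8 (256 * 76) = true := by decide +kernel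

theorem b_77 : blk t5 8 (256 * 77) = true := by decide +kernel

theorem b_78 : blk t5 8 (256 * 78) = true := by decide +kernel

theorem b_79 : blk t5 8 (256 * 79) = true := by decide +kernel

theorem b_80 : blk t5 8 (256 * 80) = true := by decide +kernel

theorem b_81 : blk t5 8 (256 * 81) = true := by decide +kernel

theorem b_82 : blk t5 8 (256 * 82) = true := by decide +kernel

theorem b_83 : blk t5 8 (256 * 83) = true := by decide +kernel

theorem b_84 : blk t5 8 (256 * 84) = true := by decide +kernel

end B9
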