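import Pool.Agent.Lib.MP_a4658c_nt.B9.Chk

namespace B9

theorem b_85 : blk t5 8 (256 * 85) = true := by decide +kernel

theorem b_86 : blk t5 8 (256 * 86) = true := by decide +kernel

theorem b_87 : blk t5 8 (256 * 87) = true := by decide +kernel

theorem b_88 : blk t5 8 (256 * 88) = true := by decide +kernel

theorem b_89 : blk t5 8 (256 * 89) = true := by decide +kernel

theorem b_90 : blk t5 8 (256 * 90) = true := by decide +kernel

theorem b_91 : blk t5 8 (256 * 91) = true := by decide +kernel

theorem b_92 : blk t5 8 (256 * 92) = true := by decide +kernel

theorem b_93 : blk t5 8 (256 * 93) = true := by decide +kernel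

theorem b_94 : blk t5 8 (256 * 94) = true := by decide +kernel

theorem b_95 : blk t5 8 (256 * 95) = true := by decide +kernel

theorem b_96 : blk t5 8 (256 * 96) = true := by decide +kernel

theorem b_97 : blk t5 8 (256 * 97) = true := by decide +kernel

theorem b_98 : blk t5 8 (256 * 98) = true := by decide +kernel

theorem b_99 : blk t5 8 (256 * 99) = true := by decide +kernel

theorem b_100 : blk t5 8 (256 * 100) = true := by decide +kernel

theorem b_101 : blk t5 8 (256 * 101) = true := by decide +kernel

end B9
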