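import Pool.Agent.Lib.MP_a4658c_nt.B9.Chk

namespace B9

theorem b_102 : blk t5 8 (256 * 102) = true := by decide +kernel

theorem b_103 : blk t5 8 (256 * 103) = true := by decide +kernel

theorem b_104 : blk t5 8 (256 * 104) = true := by decide +kernel

theorem b_105 : blk t5 8 (256 * 105) = true := by decide +kernel

theorem b_106 : blk t5 8 (256 * 106) = true := by decide +kernel

theorem b_107 : blk t5 8 (256 * 107) = true := by decide +kernel

theorem b_108 : blk t5 8 (256 * 108) = true := by decide +kernel

theorem b_109 : blk t5 8 (256 * 109) = true := by decide +kernel

theorem b_110 : blk t5 8 (256 * 110) = true := by decide +kernel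

theorem b_111 : blk t5 8 (256 * 111) = true := by decide +kernel

theorem b_112 : blk t5 8 (256 * 112) = true := by decide +kernel

theorem b_113 : blk t5 8 (256 * 113) = true := by decide +kernel

theorem b_114 : blk t5 8 (256 * 114) = true := by decide +kernel

theorem b_115 : blk t5 8 (256 * 115) = true := by decide +kernel

theorem b_116 : blk t5 8 (256 * 116) = true := by decide +kernel

theorem b_117 : blk t5 8 (256 * 117) = true := by decide +kernel

theorem b_118 : blk t5 8 (256 * 118) = true := by decide +kernel

end B9
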