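import Pool.Agent.Lib.MP_a4658c_nt.B9.Chk

namespace B9

theorem b_119 : blk t5 8 (256 * 119) = true := by decide +kernel

theorem b_120 : blk t5 8 (256 * 120) = true := by decide +kernel

theorem b_121 : blk t5 8 (256 * 121) = true := by decide +kernel

theorem b_122 : blk t5 8 (256 * 122) = true := by decide +kernel

theorem b_123 : blk t5 8 (256 * 123) = true := by decide +kernel

theorem b_124 : blk t5 8 (256 * 124) = true := by decide +kernel

theorem b_125 : blk t5 8 (256 * 125) = true := by decide +kernel

theorem b_126 : blk t5 8 (256 * 126) = true := by decide +kernel

theorem b_127 : blk t5 8 (256 * 127) = true := by decide +kernel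

theorem b_128 : blk t5 8 (256 * 128) = true := by decide +kernel

theorem b_129 : blk t5 8 (256 * 129) = true := by decide +kernel

theorem b_130 : blk t5 8 (256 * 130) = true := by decide +kernel

theorem b_131 : blk t5 8 (256 * 131) = true := by decide +kernel

theorem b_132 : blk t5 8 (256 * 132) = true := by decide +kernel

theorem b_133 : blk t5 8 (256 * 133) = true := by decide +kernel

theorem b_134 : blk t5 8 (256 * 134) = true := by decide +kernel

theorem b_135 : blk t5 8 (256 * 135) = true := by decide +kernel

end B9
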