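import Pool.Agent.Lib.MP_a4658c_nt.B9.Chk

namespace B9

theorem b_153 : blk t5 8 (256 * 153) = true := by decide +kernel

theorem b_154 : blk t5 8 (256 * 154) = true := by decide +kernel

theorem b_155 : blk t5 8 (256 * 155) = true := by decide +kernel

theorem b_156 : blk t5 8 (256 * 156) = true := by decide +kernel

theorem b_157 : blk t5 8 (256 * 157) = true := by decide +kernel

theorem b_158 : blk t5 8 (256 * 158) = true := by decide +kernel

theorem b_159 : blk t5 8 (256 * 159) = true := by decide +kernel

theorem b_160 : blk t5 8 (256 * 160) = true := by decide +kernel

theorem b_161 : blk t5 8 (256 * 161) = true := by decide +kernel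

theorem b_162 : blk t5 8 (256 * 162) = true := by decide +kernel

theorem b_163 : blk t5 8 (256 * 163) = true := by decide +kernel

theorem b_164 : blk t5 8 (256 * 164) = true := by decide +kernel

theorem b_165 : blk t5 8 (256 * 165) = true := by decide +kernel

theorem b_166 : blk t5 8 (256 * 166) = true := by decide +kernel

theorem b_167 : blk t5 8 (256 * 167) = true := by decide +kernel

theorem b_168 : blk t5 8 (256 * 168) = true := by decide +kernel

theorem b_169 : blk t5 8 (256 * 169) = true := by decide +kernel

end B9
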