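import Pool.Agent.Lib.MP_a4658c_nt.B9.Chk

namespace B9

theorem b_170 : blk t5 8 (256 * 170) = true := by decide +kernel

theorem b_171 : blk t5 8 (256 * 171) = true := by decide +kernel

theorem b_172 : blk t5 8 (256 * 172) = true := by decide +kernel

theorem b_173 : blk t5 8 (256 * 173) = true := by decide +kernel

theorem b_174 : blk t5 8 (256 * 174) = true := by decide +kernel

theorem b_175 : blk t5 8 (256 * 175) = true := by decide +kernel

theorem b_176 : blk t5 8 (256 * 176) = true := by decide +kernel

theorem b_177 : blk t5 8 (256 * 177) = true := by decide +kernel

theorem b_178 : blk t5 8 (256 * 178) = true := by decide +kernel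

theorem b_179 : blk t5 8 (256 * 179) = true := by decide +kernel

theorem b_180 : blk t5 8 (256 * 180) = true := by decide +kernel

theorem b_181 : blk t5 8 (256 * 181) = true := by decide +kernel

theorem b_182 : blk t5 8 (256 * 182) = true := by decide +kernel

theorem b_183 : blk t5 8 (256 * 183) = true := by decide +kernel

theorem b_184 : blk t5 8 (256 * 184) = true := by decide +kernel

theorem b_185 : blk t5 8 (256 * 185) = true := by decide +kernel

theorem b_186 : blk t5 8 (256 * 186) = true := by decide +kernel

end B9
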