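import Pool.Agent.Lib.MP_a4658c_nt.B9.Chk

namespace B9

theorem b_187 : blk t5 8 (256 * 187) = true := by decide +kernel

theorem b_188 : blk t5 8 (256 * 188) = true := by decide +kernel

theorem b_189 : blk t5 8 (256 * 189) = true := by decide +kernel

theorem b_190 : blk t5 8 (256 * 190) = true := by decide +kernel

theorem b_191 : blk t5 8 (256 * 191) = true := by decide +kernel

theorem b_192 : blk t5 8 (256 * 192) = true := by decide +kernel

theorem b_193 : blk t5 8 (256 * 193) = true := by decide +kernel

theorem b_194 : blk t5 8 (256 * 194) = true := by decide +kernel

theorem b_195 : blk t5 8 (256 * 195) = true := by decide +kernel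

theorem b_196 : blk t5 8 (256 * 196) = true := by decide +kernel

theorem b_197 : blk t5 8 (256 * 197) = true := by decide +kernel

theorem b_198 : blk t5 8 (256 * 198) = true := by decide +kernel

theorem b_199 : blk t5 8 (256 * 199) = true := by decide +kernel

theorem b_200 : blk t5 8 (256 * 200) = true := by decide +kernel

theorem b_201 : blk t5 8 (256 * 201) = true := by decide +kernel

theorem b_202 : blk t5 8 (256 * 202) = true := by decide +kernel

theorem b_203 : blk t5 8 (256 * 203) = true := by decide +kernel

end B9
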