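import Pool.Agent.Lib.MP_a4658c_nt.B9.Chk

namespace B9

theorem b_204 : blk t5 8 (256 * 204) = true := by decide +kernel

theorem b_205 : blk t5 8 (256 * 205) = true := by decide +kernel

theorem b_206 : blk t5 8 (256 * 206) = true := by decide +kernel

theorem b_207 : blk t5 8 (256 * 207) = true := by decide +kernel

theorem b_208 : blk t5 8 (256 * 208) = true := by decide +kernel

theorem b_209 : blk t5 8 (256 * 209) = true := by decide +kernel

theorem b_210 : blk t5 8 (256 * 210) = true := by decide +kernel

theorem b_211 : blk t5 8 (256 * 211) = true := by decide +kernel

theorem b_212 : blk t5 8 (256 * 212) = true := by decide +kernel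

theorem b_213 : blk t5 8 (256 * 213) = true := by decide +kernel

theorem b_214 : blk t5 8 (256 * 214) = true := by decide +kernel

theorem b_215 : blk t5 8 (256 * 215) = true := by decide +kernel

theorem b_216 : blk t5 8 (256 * 216) = true := by decide +kernel

theorem b_217 : blk t5 8 (256 * 217) = true := by decide +kernel

theorem b_218 : blk t5 8 (256 * 218) = true := by decide +kernel

theorem b_219 : blk t5 8 (256 * 219) = true := by decide +kernel

theorem b_220 : blk t5 8 (256 * 220) = true := by decide +kernel

end B9
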