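import Pool.Agent.Lib.MP_a4658c_nt.B9.Chk

namespace B9

theorem b_221 : blk t5 8 (256 * 221) = true := by decide +kernel

theorem b_222 : blk t5 8 (256 * 222) = true := by decide +kernel

theorem b_223 : blk t5 8 (256 * 223) = true := by decide +kernel

theorem b_224 : blk t5 8 (256 * 224) = true := by decide +kernel

theorem b_225 : blk t5 8 (256 * 225) = true := by decide +kernel

theorem b_226 : blk t5 8 (256 * 226) = true := by decide +kernel

theorem b_227 : blk t5 8 (256 * 227) = true := by decide +kernel

theorem b_228 : blk t5 8 (256 * 228) = true := by decide +kernel

theorem b_229 : blk t5 8 (256 * 229) = true := by decide +kernel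

theorem b_230 : blk t5 8 (256 * 230) = true := by decide +kernel

theorem b_231 : blk t5 8 (256 * 231) = true := by decide +kernel

theorem b_232 : blk t5 8 (256 * 232) = true := by decide +kernel

theorem b_233 : blk t5 8 (256 * 233) = true := by decide +kernel

theorem b_234 : blk t5 8 (256 * 234) = true := by decide +kernel

theorem b_235 : blk t5 8 (256 * 235) = true := by decide +kernel

theorem b_236 : blk t5 8 (256 * 236) = true := by decide +kernel

theorem b_237 : blk t5 8 (256 * 237) = true := by decide +kernel

end B9
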