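import Pool.Agent.Lib.MP_a4658c_nt.B9.Chk

namespace B9

theorem b_238 : blk t5 8 (256 * 238) = true := by decide +kernel

theorem b_239 : blk t5 8 (256 * 239) = true := by decide +kernel

theorem b_240 : blk t5 8 (256 * 240) = true := by decide +kernel

theorem b_241 : blk t5 8 (256 * 241) = true := by decide +kernel

theorem b_242 : blk t5 8 (256 * 242) = true := by decide +kernel

theorem b_243 : blk t5 8 (256 * 243) = true := by decide +kernel

theorem b_244 : blk t5 8 (256 * 244) = true := by decide +kernel

theorem b_245 : blk t5 8 (256 * 245) = true := by decide +kernel

theorem b_246 : blk t5 8 (256 * 246) = true := by decide +kernel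

theorem b_247 : blk t5 8 (256 * 247) = true := by decide +kernel

theorem b_248 : blk t5 8 (256 * 248) = true := by decide +kernel

theorem b_249 : blk t5 8 (256 * 249) = true := by decide +kernel

theorem b_250 : blk t5 8 (256 * 250) = true := by decide +kernel

theorem b_251 : blk t5 8 (256 * 251) = true := by decide +kernel

theorem b_252 : blk t5 8 (256 * 252) = true := by decide +kernel

theorem b_253 : blk t5 8 (256 * 253) = true := by decide +kernel

theorem b_254 : blk t5 8 (256 * 254) = true := by decide +kernel

end B9
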