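import Pool.Agent.Lib.MP_a4658c_nt.B9.Chk

namespace B9

theorem b_255 : blk t5 8 (256 * 255) = true := by decide +kernel

theorem b_256 : blk t5 8 (256 * 256) = true := by decide +kernel

theorem b_257 : blk t5 8 (256 * 257) = true := by decide +kernel

theorem b_258 : blk t5 8 (256 * 258) = true := by decide +kernel

theorem b_259 : blk t5 8 (256 * 259) = true := by decide +kernel

theorem b_260 : blk t5 8 (256 * 260) = true := by decide +kernel

theorem b_261 : blk t5 8 (256 * 261) = true := by decide +kernel

theorem b_262 : blk t5 8 (256 * 262) = true := by decide +kernel

theorem b_263 : blk t5 8 (256 * 263) = true := by decide +kernel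

theorem b_264 : blk t5 8 (256 * 264) = true := by decide +kernel

theorem b_265 : blk t5 8 (256 * 265) = true := by decide +kernel

theorem b_266 : blk t5 8 (256 * 266) = true := by decide +kernel

theorem b_267 : blk t5 8 (256 * 267) = true := by decide +kernel

theorem b_268 : blk t5 8 (256 * 268) = true := by decide +kernel

theorem b_269 : blk t5 8 (256 * 269) = true := by decide +kernel

theorem b_270 : blk t5 8 (256 * 270) = true := by decide +kernel

theorem b_271 : blk t5 8 (256 * 271) = true := by decide +kernel

end B9
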