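import Pool.Agent.Lib.MP_a4658c_nt.B9.Chk

namespace B9

theorem b_272 : blk t5 8 (256 * 272) = true := by decide +kernel

theorem b_273 : blk t5 8 (256 * 273) = true := by decide +kernel

theorem b_274 : blk t5 8 (256 * 274) = true := by decide +kernel

theorem b_275 : blk t5 8 (256 * 275) = true := by decide +kernel

theorem b_276 : blk t5 8 (256 * 276) = true := by decide +kernel

theorem b_277 : blk t5 8 (256 * 277) = true := by decide +kernel

theorem b_278 : blk t5 8 (256 * 278) = true := by decide +kernel

theorem b_279 : blk t5 8 (256 * 279) = true := by decide +kernel

theorem b_280 : blk t5 8 (256 * 280) = true := by decide +kernel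

theorem b_281 : blk t5 8 (256 * 281) = true := by decide +kernel

theorem b_282 : blk t5 8 (256 * 282) = true := by decide +kernel

theorem b_283 : blk t5 8 (256 * 283) = true := by decide +kernel

theorem b_284 : blk t5 8 (256 * 284) = true := by decide +kernel

theorem b_285 : blk t5 8 (256 * 285) = true := by decide +kernel

theorem b_286 : blk t5 8 (256 * 286) = true := by decide +kernel

theorem b_287 : blk t5 8 (256 * 287) = true := by decide +kernel

theorem b_288 : blk t5 8 (256 * 288) = true := by decide +kernel

end B9
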