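import Pool.Agent.Lib.MP_a4658c_nt.B9.Chk

namespace B9

theorem b_289 : blk t5 8 (256 * 289) = true := by decide +kernel

theorem b_290 : blk t5 8 (256 * 290) = true := by decide +kernel

theorem b_291 : blk t5 8 (256 * 291) = true := by decide +kernel

theorem b_292 : blk t5 8 (256 * 292) = true := by decide +kernel

theorem b_293 : blk t5 8 (256 * 293) = true := by decide +kernel

theorem b_294 : blk t5 8 (256 * 294) = true := by decide +kernel

theorem b_295 : blk t5 8 (256 * 295) = true := by decide +kernel

theorem b_296 : blk t5 8 (256 * 296) = true := by decide +kernel

theorem b_297 : blk t5 8 (256 * 297) = true := by decide +kernel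

theorem b_298 : blk t5 8 (256 * 298) = true := by decide +kernel

theorem b_299 : blk t5 8 (256 * 299) = true := by decide +kernel

theorem b_300 : blk t5 8 (256 * 300) = true := by decide +kernel

theorem b_301 : blk t5 8 (256 * 301) = true := by decide +kernel

theorem b_302 : blk t5 8 (256 * 302) = true := by decide +kernel

theorem b_303 : blk t5 8 (256 * 303) = true := by decide +kernel

theorem b_304 : blk t5 8 (256 * 304) = true := by decide +kernel

theorem b_305 : blk t5 8 (256 * 305) = true := by decide +kernel

end B9
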