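import Pool.Agent.Lib.MP_a4658c_nt.B9.Chk

namespace B9

theorem q_0 : blk p5 8 (256 * 0) = true := by decide +kernel

theorem q_1 : blk p5 8 (256 * 1) = true := by decide +kernel

theorem q_2 : blk p5 8 (256 * 2) = true := by decide +kernel

theorem q_3 : blk p5 8 (256 * 3) = true := by decide +kernel

theorem q_4 : blk p5 8 (256 * 4) = true := by decide +kernel

theorem q_5 : blk p5 8 (256 * 5) = true := by decide +kernel

theorem q_6 : blk p5 8 (256 * 6) = true := by decide +kernel

theorem q_7 : blk p5 8 (256 * 7) = true := by decide +kernel

theorem q_8 : blk p5 8 (256 * 8) = true := by decide +kernel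

theorem q_9 : blk p5 8 (256 * 9) = true := by decide +kernel

theorem q_10 : blk p5 8 (256 * 10) = true := by decide +kernel

theorem q_11 : blk p5 8 (256 * 11) = true := by decide +kernel

theorem q_12 : blk p5 8 (256 * 12) = true := by decide +kernel

theorem q_13 : blk p5 8 (256 * 13) = true := by decide +kernel

theorem q_14 : blk p5 8 (256 * 14) = true := by decide +kernel

theorem q_15 : blk p5 8 (256 * 15) = true := by decide +kernel

theorem q_16 : blk p5 8 (256 * 16) = true := by decide +kernel

theorem q_17 : blk p5 8 (256 * 17) = true := by decide +kernel

theorem q_18 : blk p5 8 (256 * 18) = true := by decide +kernel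

theorem q_19 : blk p5 8 (256 * 19) = true := by decide +kernel

theorem q_20 : blk p5 8 (256 * 20) = true := by decide +kernel

theorem q_21 : blk p5 8 (256 * 21) = true := by decide +kernel

theorem q_22 : blk p5 8 (256 * 22) = true := by decide +kernel

theorem q_23 : blk p5 8 (256 * 23) = true := by decide +kernel

theorem q_24 : blk p5 8 (256 * 24) = true := by decide +kernel

theorem q_25 : blk p5 8 (256 * 25) = true := by decide +kernel

theorem q_26 : blk p5 8 (256 * 26) = true := by decide +kernel

theorem q_27 : blk p5 8 (256 * 27) = true := by decide +kernel

theorem q_28 : blk p5 8 (256 * 28) = true := by decide +kernel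

theorem q_29 : blk p5 8 (256 * 29) = true := by decide +kernel

theorem q_30 : blk p5 8 (256 * 30) = true := by decide +kernel

theorem q_31 : blk p5 8 (256 * 31) = true := by decide +kernel

theorem q_32 : blk p5 8 (256 * 32) = true := by decide +kernel

theorem q_33 : blk p5 8 (256 * 33) = true := by decide +kernel

theorem q_34 : blk p5 8 (256 * 34) = true := by decide +kernel

theorem q_35 : blk p5 8 (256 * 35) = true := by decide +kernel

theorem q_36 : blk p5 8 (256 * 36) = true := by decide +kernel

theorem q_37 : blk p5 8 (256 * 37) = true := by decide +kernel

theorem q_38 : blk p5 8 (256 * 38) = true := by decide +kernel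

theorem q_39 : blk p5 8 (256 * 39) = true := by decide +kernel

theorem q_40 : blk p5 8 (256 * 40) = true := by decide +kernel

theorem q_41 : blk p5 8 (256 * 41) = true := by decide +kernel

theorem q_42 : blk p5 8 (256 * 42) = true := by decide +kernel

theorem q_43 : blk p5 8 (256 * 43) = true := by decide +kernel

theorem q_44 : blk p5 8 (256 * 44) = true := by decide +kernel

theorem q_45 : blk p5 8 (256 * 45) = true := by decide +kernel

theorem q_46 : blk p5 8 (256 * 46) = true := by decide +kernel

theorem q_47 : blk p5 8 (256 * 47) = true := by decide +kernel

theorem q_48 : blk p5 8 (256 * 48) = true := by decide +kernel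

theorem q_49 : blk p5 8 (256 * 49) = true := by decide +kernel

theorem q_50 : blk p5 8 (256 * 50) = true := by decide +kernel

theorem q_51 : blk p5 8 (256 * 51) = true := by decide +kernel

theorem q_52 : blk p5 8 (256 * 52) = true := by decide +kernel

theorem q_53 : blk p5 8 (256 * 53) = true := by decide +kernel

theorem q_54 : blk p5 8 (256 * 54) = true := by decide +kernel

theorem q_55 : blk p5 8 (256 * 55) = true := by decide +kernel

theorem q_56 : blk p5 8 (256 * 56) = true := by decide +kernel

theorem q_57 : blk p5 8 (256 * 57) = true := by decide +kernel

theorem q_58 : blk p5 8 (256 * 58) = true := by decide +kernel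

theorem q_59 : blk p5 8 (256 * 59) = true := by decide +kernel

theorem q_60 : blk p5 8 (256 * 60) = true := by decide +kernel

theorem q_a : blk p5 3 15616 = true := by decide +kernel

theorem q_b : p5 15624 = true := by decide +kernel

end B9
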