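import Pool.Agent.Lib.MP_a4658c_nt.B9.Main
import Pool.Agent.Lib.MP_a4658c_nt.B9.P0
import Pool.Agent.Lib.MP_a4658c_nt.B9.C00
import Pool.Agent.Lib.MP_a4658c_nt.B9.C01
import Pool.Agent.Lib.MP_a4658c_nt.B9.C02
import Pool.Agent.Lib.MP_a4658c_nt.B9.C03
import Pool.Agent.Lib.MP_a4658c_nt.B9.C04
import Pool.Agent.Lib.MP_a4658c_nt.B9.C05
import Pool.Agent.Lib.MP_a4658c_nt.B9.C06
import Pool.Agent.Lib.MP_a4658c_nt.B9.C07
import Pool.Agent.Lib.MP_a4658c_nt.B9.C08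
import Pool.Agent.Lib.MP_a4658c_nt.B9.C09
import Pool.Agent.Lib.MP_a4658c_nt.B9.C10
import Pool.Agent.Lib.MP_a4658c_nt.B9.C11
import Pool.Agent.Lib.MP_a4658c_nt.B9.C12
import Pool.Agent.Lib.MP_a4658c_nt.B9.C13
import Pool.Agent.Lib.MP_a4658c_nt.B9.C14
import Pool.Agent.Lib.MP_a4658c_nt.B9.C15
import Pool.Agent.Lib.MP_a4658c_nt.B9.C16
import Pool.Agent.Lib.MP_a4658c_nt.B9.C17

/-! Assembly of the kernel computations: the test function is good. -/

namespace B9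

lemma get_le (t : Tr) : ∀ i : ℕ, t.get i ≤ 65535 := by
  induction t with
  | leaf n =>
    intro i
    exact Nat.and_le_right
  | node a b iha ihb =>
    intro i
    have e : (Tr.node a b).get i
        = Bool.rec (b.get (Nat.div i 2)) (a.get (Nat.div i 2)) (Nat.beq (Nat.mod i 2) 0) := rfl
    rw [e]
    cases Nat.beq (Nat.mod i 2) 0
    · exact ihb _
    · exact iha _

lemma blk_spec (t : ℕ → Bool) (d : ℕ) : ∀ x, blk t d x = true → ∀ i < 2 ^ d, t (x + i) = true := by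
  induction d with
  | zero =>
    intro x h i hi
    have : i = 0 := by simpa using hi
    subst this
    exact h
  | succ d ih =>
    intro x h i hi
    have e : blk t (d + 1) x = (blk t d x && blk t d (Nat.add x (Nat.pow 2 d))) := rfl
    rw [e, Bool.and_eq_true] at h
    rcases lt_or_ge i (2 ^ d) with h1 | h1
    · exact ih x h.1 i h1
    · have h2 := ih _ h.2 (i - 2 ^ d) (by rw [pow_succ] at hi; omega)
      have h3 : Nat.add x (Nat.pow 2 d) + (i - 2 ^ d) = x + i := by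
        have : Nat.add x (Nat.pow 2 d) = x + 2 ^ d := rfl
        omega
      rwa [h3] at h2

lemma sumL_eq (t : Tr) (m : ℕ) (l : List (ℕ × ℕ)) :
    sumL t m l = (l.map (fun h => h.2 * t.get (h.1 * m / 5 % 78125))).sum := by
  induction l with
  | nil => rfl
  | cons h l ih =>
    have e : sumL t m (h :: l)
        = h.2 * t.get (h.1 * m / 5 % 78125) + sumL t m l := rfl
    rw [e, ih, List.map_cons, List.sum_cons]

lemma c_0 : ∀ i, 0 ≤ i → i < 17 → blk t5 8 (256 * i) = true := by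
  intro i h1 h2
  interval_cases i
  exacts [b_0, b_1, b_2, b_3, b_4, b_5, b_6, b_7, b_8, b_9, b_10, b_11, b_12, b_13, b_14, b_15, b_16]

lemma c_1 : ∀ i, 17 ≤ i → i < 34 → blk t5 8 (256 * i) = true := by
  intro i h1 h2
  interval_cases i
  exacts [b_17, b_18, b_19, b_20, b_21, b_22, b_23, b_24, b_25, b_26, b_27, b_28, b_29, b_30, b_31, b_32, b_33]

lemma c_2 : ∀ i, 34 ≤ i → i < 51 → blk t5 8 (256 * i) = true := by
  intro i h1 h2
  interval_cases i
  exacts [b_34, b_35, b_36, b_37, b_38, b_39, b_40, b_41, b_42, b_43, b_44, b_45, b_46, b_47, b_48, b_49, b_50]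

lemma c_3 : ∀ i, 51 ≤ i → i < 68 → blk t5 8 (256 * i) = true := by
  intro i h1 h2
  interval_cases i
  exacts [b_51, b_52, b_53, b_54, b_55, b_56, b_57, b_58, b_59, b_60, b_61, b_62, b_63, b_64, b_65, b_66, b_67]

lemma c_4 : ∀ i, 68 ≤ i → i < 85 → blk t5 8 (256 * i) = true := by
  intro i h1 h2
  interval_cases i
  exacts [b_68, b_69, b_70, b_71, b_72, b_73, b_74, b_75, b_76, b_77, b_78, b_79, b_80, b_81, b_82, b_83, b_84]

lemma c_5 : ∀ i, 85 ≤ i → i < 102 → blk t5 8 (256 * i) = true := by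
  intro i h1 h2
  interval_cases i
  exacts [b_85, b_86, b_87, b_88, b_89, b_90, b_91, b_92, b_93, b_94, b_95, b_96, b_97, b_98, b_99, b_100, b_101]

lemma c_6 : ∀ i, 102 ≤ i → i < 119 → blk t5 8 (256 * i) = true := by
  intro i h1 h2
  interval_cases i
  exacts [b_102, b_103, b_104, b_105, b_106, b_107, b_108, b_109, b_110, b_111, b_112, b_113, b_114, b_115, b_116, b_117, b_118]

lemma c_7 : ∀ i, 119 ≤ i → i < 136 → blk t5 8 (256 * i) = true := by
  intro i h1 h2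
  interval_cases i
  exacts [b_119, b_120, b_121, b_122, b_123, b_124, b_125, b_126, b_127, b_128, b_129, b_130, b_131, b_132, b_133, b_134, b_135]

lemma c_8 : ∀ i, 136 ≤ i → i < 153 → blk t5 8 (256 * i) = true := by
  intro i h1 h2
  interval_cases i
  exacts [b_136, b_137, b_138, b_139, b_140, b_141, b_142, b_143, b_144, b_145, b_146, b_147, b_148, b_149, b_150, b_151, b_152]

lemma c_9 : ∀ i, 153 ≤ i → i < 170 → blk t5 8 (256 * i) = true := by
  intro i h1 h2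
  interval_cases i
  exacts [b_153, b_154, b_155, b_156, b_157, b_158, b_159, b_160, b_161, b_162, b_163, b_164, b_165, b_166, b_167, b_168, b_169]

lemma c_10 : ∀ i, 170 ≤ i → i < 187 → blk t5 8 (256 * i) = true := by
  intro i h1 h2
  interval_cases i
  exacts [b_170, b_171, b_172, b_173, b_174, b_175, b_176, b_177, b_178, b_179, b_180, b_181, b_182, b_183, b_184, b_185, b_186]

lemma c_11 : ∀ i, 187 ≤ i → i < 204 → blk t5 8 (256 * i) = true := by
  intro i h1 h2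
  interval_cases i
  exacts [b_187, b_188, b_189, b_190, b_191, b_192, b_193, b_194, b_195, b_196, b_197, b_198, b_199, b_200, b_201, b_202, b_203]

lemma c_12 : ∀ i, 204 ≤ i → i < 221 → blk t5 8 (256 * i) = true := by
  intro i h1 h2
  interval_cases i
  exacts [b_204, b_205, b_206, b_207, b_208, b_209, b_210, b_211, b_212, b_213, b_214, b_215, b_216, b_217, b_218, b_219, b_220]

lemma c_13 : ∀ i, 221 ≤ i → i < 238 → blk t5 8 (256 * i) = true := by
  intro i h1 h2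
  interval_cases i
  exacts [b_221, b_222, b_223, b_224, b_225, b_226, b_227, b_228, b_229, b_230, b_231, b_232, b_233, b_234, b_235, b_236, b_237]

lemma c_14 : ∀ i, 238 ≤ i → i < 255 → blk t5 8 (256 * i) = true := by
  intro i h1 h2
  interval_cases i
  exacts [b_238, b_239, b_240, b_241, b_242, b_243, b_244, b_245, b_246, b_247, b_248, b_249, b_250, b_251, b_252, b_253, b_254]

lemma c_15 : ∀ i, 255 ≤ i → i < 272 → blk t5 8 (256 * i) = true := by
  intro i h1 h2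
  interval_cases i
  exacts [b_255, b_256, b_257, b_258, b_259, b_260, b_261, b_262, b_263, b_264, b_265, b_266, b_267, b_268, b_269, b_270, b_271]

lemma c_16 : ∀ i, 272 ≤ i → i < 289 → blk t5 8 (256 * i) = true := by
  intro i h1 h2
  interval_cases i
  exacts [b_272, b_273, b_274, b_275, b_276, b_277, b_278, b_279, b_280, b_281, b_282, b_283, b_284, b_285, b_286, b_287, b_288]

lemma c_17 : ∀ i, 289 ≤ i → i < 306 → blk t5 8 (256 * i) = true := by
  intro i h1 h2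
  interval_cases i
  exacts [b_289, b_290, b_291, b_292, b_293, b_294, b_295, b_296, b_297, b_298, b_299, b_300, b_301, b_302, b_303, b_304, b_305]

lemma c_all (i : ℕ) (h : i < 306) : blk t5 8 (256 * i) = true := by
  rcases lt_or_ge i 17 with h0 | h0
  · exact c_0 i (by omega) h0
  rcases lt_or_ge i 34 with h1 | h1
  · exact c_1 i (by omega) h1
  rcases lt_or_ge i 51 with h2 | h2
  · exact c_2 i (by omega) h2
  rcases lt_or_ge i 68 with h3 | h3
  · exact c_3 i (by omega) h3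
  rcases lt_or_ge i 85 with h4 | h4
  · exact c_4 i (by omega) h4
  rcases lt_or_ge i 102 with h5 | h5
  · exact c_5 i (by omega) h5
  rcases lt_or_ge i 119 with h6 | h6
  · exact c_6 i (by omega) h6
  rcases lt_or_ge i 136 with h7 | h7
  · exact c_7 i (by omega) h7
  rcases lt_or_ge i 153 with h8 | h8
  · exact c_8 i (by omega) h8
  rcases lt_or_ge i 170 with h9 | h9
  · exact c_9 i (by omega) h9
  rcases lt_or_ge i 187 with h10 | h10
  · exact c_10 i (by omega) h10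
  rcases lt_or_ge i 204 with h11 | h11
  · exact c_11 i (by omega) h11
  rcases lt_or_ge i 221 with h12 | h12
  · exact c_12 i (by omega) h12
  rcases lt_or_ge i 238 with h13 | h13
  · exact c_13 i (by omega) h13
  rcases lt_or_ge i 255 with h14 | h14
  · exact c_14 i (by omega) h14
  rcases lt_or_ge i 272 with h15 | h15
  · exact c_15 i (by omega) h15
  rcases lt_or_ge i 289 with h16 | h16
  · exact c_16 i (by omega) h16
  exact c_17 i (by omega) h

lemma t5_all (x : ℕ) (hx : x < 78125) : t5 x = true := by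
  have h := blk_spec t5 8 _ (c_all (x / 256) (by omega)) (x % 256) (by omega)
  rwa [show 256 * (x / 256) + x % 256 = x by omega] at h

lemma q_all (i : ℕ) (h : i < 61) : blk p5 8 (256 * i) = true := by
  interval_cases i
  exacts [q_0, q_1, q_2, q_3, q_4, q_5, q_6, q_7, q_8, q_9, q_10, q_11, q_12, q_13, q_14, q_15, q_16, q_17, q_18, q_19, q_20, q_21, q_22, q_23, q_24, q_25, q_26, q_27, q_28, q_29, q_30, q_31, q_32, q_33, q_34, q_35, q_36, q_37, q_38, q_39, q_40, q_41, q_42, q_43, q_44, q_45, q_46, q_47, q_48, q_49, q_50, q_51, q_52, q_53, q_54, q_55, q_56, q_57, q_58, q_59, q_60]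

lemma p5_all (x : ℕ) (hx : x < 15625) : p5 x = true := by
  rcases lt_or_ge x 15616 with h1 | h1
  · have h := blk_spec p5 8 _ (q_all (x / 256) (by omega)) (x % 256) (by omega)
    rwa [show 256 * (x / 256) + x % 256 = x by omega] at h
  rcases lt_or_ge x 15624 with h2 | h2
  · have h := blk_spec p5 3 _ q_a (x - 15616) (by omega)
    rwa [show 15616 + (x - 15616) = x by omega] at h
  · have : x = 15624 := by omega
    subst this
    exact q_b

/-- The test function. -/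
noncomputable def G (m : ℕ) : ℕ := if m % 3 = 1 then tabA.get (m % 78125) else tabB.get (m % 78125)

lemma tab_zero (u : ℕ) (hu : u < 78125) (h5 : u % 5 = 0) : tabA.get u = 0 ∧ tabB.get u = 0 := by
  have h := p5_all (u / 5) (by omega)
  unfold p5 at h
  simp only [Bool.and_eq_true] at h
  have e : Nat.mul 5 (u / 5) = u := by
    have : Nat.mul 5 (u / 5) = 5 * (u / 5) := rfl
    omega
  rw [e] at h
  exact ⟨Nat.eq_of_beq_eq_true h.1.1.1.1.1, Nat.eq_of_beq_eq_true h.1.1.1.1.2⟩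

lemma tab_pos (u : ℕ) (hu : u < 78125) (h5 : u % 5 ≠ 0) : 1 ≤ tabA.get u ∧ 1 ≤ tabB.get u := by
  have h := p5_all (u / 5) (by omega)
  unfold p5 at h
  simp only [Bool.and_eq_true] at h
  have e : ∀ c, Nat.add (Nat.mul 5 (u / 5)) c = 5 * (u / 5) + c := fun _ => rfl
  have hc : u % 5 = 1 ∨ u % 5 = 2 ∨ u % 5 = 3 ∨ u % 5 = 4 := by omega
  rw [e, e, e, e] at h
  rcases hc with hc | hc | hc | hc
  · rw [show 5 * (u / 5) + 1 = u by omega] at h
    exact ⟨Nat.le_of_ble_eq_true h.1.1.1.2.1, Nat.le_of_ble_eq_true h.1.1.1.2.2⟩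
  · rw [show 5 * (u / 5) + 2 = u by omega] at h
    exact ⟨Nat.le_of_ble_eq_true h.1.1.2.1, Nat.le_of_ble_eq_true h.1.1.2.2⟩
  · rw [show 5 * (u / 5) + 3 = u by omega] at h
    exact ⟨Nat.le_of_ble_eq_true h.1.2.1, Nat.le_of_ble_eq_true h.1.2.2⟩
  · rw [show 5 * (u / 5) + 4 = u by omega] at h
    exact ⟨Nat.le_of_ble_eq_true h.2.1, Nat.le_of_ble_eq_true h.2.2⟩

lemma red (D m : ℕ) : (D * m / 5) % 78125 = (D * (m % 390625) / 5) % 78125 := by
  have h1 : D * m = D * (m % 390625) + 5 * (78125 * (D * (m / 390625))) := by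
    conv_lhs => rw [← Nat.mod_add_div m 390625]
    ring
  rw [h1, Nat.add_mul_div_left _ _ (by norm_num : 0 < 5), Nat.add_mul_mod_self_left]

/-- Facts on the letters with a factor 3. -/
def FB (c : ℕ) (h : ℕ × ℕ) : Prop :=
  (∃ A < 14, ∃ b < 9, 1 ≤ A ∧ h.1 = 2 ^ A * 3 ^ b) ∧ (h.1 % 5 * c) % 5 = 1 ∧ h.1 % 3 = 0 ∧
    h.2 ^ 10 * h.1 ^ 9 ≤ 5 ^ 9 * 1048576 ^ 10

/-- Facts on the letters without a factor 3. -/
def FZ (c r : ℕ) (h : ℕ × ℕ) : Prop :=
  (∃ A < 14, ∃ b < 9, 1 ≤ A ∧ h.1 = 2 ^ A * 3 ^ b) ∧ (h.1 % 5 * c) % 5 = 1 ∧ h.1 % 3 = r ∧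
    h.2 ^ 10 * h.1 ^ 9 ≤ 5 ^ 9 * 1048576 ^ 10

instance (c : ℕ) (h : ℕ × ℕ) : Decidable (FB c h) := by unfold FB; infer_instance
instance (c r : ℕ) (h : ℕ × ℕ) : Decidable (FZ c r h) := by unfold FZ; infer_instance

lemma fB0 : ∀ h ∈ lB0, FB 1 h := by decide +kernel
lemma fB1 : ∀ h ∈ lB1, FB 2 h := by decide +kernel
lemma fB2 : ∀ h ∈ lB2, FB 4 h := by decide +kernel
lemma fB3 : ∀ h ∈ lB3, FB 3 h := by decide +kernel
lemma fZ0 : ∀ h ∈ lZ0, FZ 1 1 h := by decide +kernel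
lemma fZ1 : ∀ h ∈ lZ1, FZ 2 2 h := by decide +kernel
lemma fZ2 : ∀ h ∈ lZ2, FZ 4 1 h := by decide +kernel
lemma fZ3 : ∀ h ∈ lZ3, FZ 3 2 h := by decide +kernel

lemma nd0 : ((lB0 ++ lZ0).map Prod.fst).Nodup ∧ (lB0 ++ lZ0).length ≤ 20 := by decide +kernel
lemma nd1 : ((lB1 ++ lZ1).map Prod.fst).Nodup ∧ (lB1 ++ lZ1).length ≤ 20 := by decide +kernel
lemma nd2 : ((lB2 ++ lZ2).map Prod.fst).Nodup ∧ (lB2 ++ lZ2).length ≤ 20 := by decide +kernel
lemma nd3 : ((lB3 ++ lZ3).map Prod.fst).Nodup ∧ (lB3 ++ lZ3).length ≤ 20 := by decide +kernel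

/-- The conclusion of `Good.ineq`. -/
def Concl (m : ℕ) : Prop := ∃ S : Finset (ℕ × ℕ), S.card ≤ 20 ∧
    (∀ h ∈ S, ∀ h' ∈ S, h.1 = h'.1 → h = h') ∧
    (∀ h ∈ S, (∃ A b, 1 ≤ A ∧ h.1 = 2 ^ A * 3 ^ b) ∧ (h.1 * m) % 5 = 1 ∧
      (h.1 * m / 5) % 3 ≠ 0 ∧ h.2 ^ 10 * h.1 ^ 9 ≤ 5 ^ 9 * 1048576 ^ 10) ∧
    1048576 * G m ≤ ∑ h ∈ S, h.2 * G (h.1 * m / 5)

lemma concl_of_list {m : ℕ} (l : List (ℕ × ℕ)) (hnd : (l.map Prod.fst).Nodup)
    (hlen : l.length ≤ 20)
    (hl : ∀ h ∈ l, (∃ A b, 1 ≤ A ∧ h.1 = 2 ^ A * 3 ^ b) ∧ (h.1 * m) % 5 = 1 ∧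
      (h.1 * m / 5) % 3 ≠ 0 ∧ h.2 ^ 10 * h.1 ^ 9 ≤ 5 ^ 9 * 1048576 ^ 10)
    (hs : 1048576 * G m ≤ (l.map (fun h => h.2 * G (h.1 * m / 5))).sum) : Concl m := by
  classical
  have hn : l.Nodup := List.Nodup.of_map _ hnd
  refine ⟨l.toFinset, le_trans l.toFinset_card_le hlen, ?_, ?_, ?_⟩
  · intro h hh h' hh' e
    rw [List.mem_toFinset] at hh hh'
    exact List.inj_on_of_nodup_map hnd hh hh' e
  · intro h hh
    rw [List.mem_toFinset] at hh
    exact hl h hh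
  · rw [List.sum_toFinset _ hn]
    exact hs

lemma mod5 {c m D : ℕ} (hc : m % 5 = c) (h : (D % 5 * c) % 5 = 1) : (D * m) % 5 = 1 := by
  rw [Nat.mul_mod, hc]; exact h

lemma vB {c m : ℕ} (hc : m % 5 = c) {h : ℕ × ℕ} (hh : FB c h) : (h.1 * m / 5) % 3 = 1 := by
  have h1 := mod5 hc hh.2.1
  obtain ⟨k, hk⟩ : ∃ k, h.1 = 3 * k := ⟨h.1 / 3, by have := hh.2.2.1; omega⟩
  have h2 : h.1 * m = 3 * (k * m) := by rw [hk]; ring
  omega

lemma vZ {c r m : ℕ} (hc : m % 5 = c) {h : ℕ × ℕ} (hh : FZ c r h) (hr : (r * (m % 3)) % 3 = 2) :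
    (h.1 * m / 5) % 3 = 2 := by
  have h1 := mod5 hc hh.2.1
  have h2 : (h.1 * m) % 3 = 2 := by rw [Nat.mul_mod, hh.2.2.1]; exact hr
  omega

lemma sumB {c m : ℕ} (hc : m % 5 = c) (l : List (ℕ × ℕ)) (hl : ∀ h ∈ l, FB c h) :
    (l.map (fun h => h.2 * G (h.1 * m / 5))).sum = sumL tabA (m % 390625) l := by
  rw [sumL_eq]
  congr 1
  refine List.map_congr_left fun h hh => ?_
  rw [← red]
  unfold G
  rw [if_pos (vB hc (hl h hh))]

lemma sumZ {c r m : ℕ} (hc : m % 5 = c) (l : List (ℕ × ℕ)) (hl : ∀ h ∈ l, FZ c r h)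
    (hr : (r * (m % 3)) % 3 = 2) :
    (l.map (fun h => h.2 * G (h.1 * m / 5))).sum = sumL tabB (m % 390625) l := by
  rw [sumL_eq]
  congr 1
  refine List.map_congr_left fun h hh => ?_
  rw [← red]
  unfold G
  rw [if_neg (by rw [vZ hc (hl h hh) hr]; norm_num)]

lemma factB {c m : ℕ} (hc : m % 5 = c) {h : ℕ × ℕ} (hh : FB c h) :
    (∃ A b, 1 ≤ A ∧ h.1 = 2 ^ A * 3 ^ b) ∧ (h.1 * m) % 5 = 1 ∧
      (h.1 * m / 5) % 3 ≠ 0 ∧ h.2 ^ 10 * h.1 ^ 9 ≤ 5 ^ 9 * 1048576 ^ 10 := by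
  refine ⟨?_, mod5 hc hh.2.1, by rw [vB hc hh]; norm_num, hh.2.2.2⟩
  obtain ⟨A, _, b, _, h1, h2⟩ := hh.1
  exact ⟨A, b, h1, h2⟩

lemma factZ {c r m : ℕ} (hc : m % 5 = c) {h : ℕ × ℕ} (hh : FZ c r h)
    (hr : (r * (m % 3)) % 3 = 2) :
    (∃ A b, 1 ≤ A ∧ h.1 = 2 ^ A * 3 ^ b) ∧ (h.1 * m) % 5 = 1 ∧
      (h.1 * m / 5) % 3 ≠ 0 ∧ h.2 ^ 10 * h.1 ^ 9 ≤ 5 ^ 9 * 1048576 ^ 10 := by
  refine ⟨?_, mod5 hc hh.2.1, by rw [vZ hc hh hr]; norm_num, hh.2.2.2⟩
  obtain ⟨A, _, b, _, h1, h2⟩ := hh.1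
  exact ⟨A, b, h1, h2⟩

/-- Only letters with a factor 3 are used. -/
lemma concl_B {c m : ℕ} (hc : m % 5 = c) (lB lZ : List (ℕ × ℕ))
    (hn : ((lB ++ lZ).map Prod.fst).Nodup ∧ (lB ++ lZ).length ≤ 20) (hB : ∀ h ∈ lB, FB c h)
    (hs : 1048576 * G m ≤ sumL tabA (m % 390625) lB) : Concl m := by
  refine concl_of_list lB ?_ ?_ (fun h hh => factB hc (hB h hh)) ?_
  · have := hn.1
    rw [List.map_append] at this
    exact (List.nodup_append.mp this).1
  · have := hn.2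
    rw [List.length_append] at this
    omega
  · rw [sumB hc lB hB]; exact hs

/-- All letters are used. -/
lemma concl_Z {c r m : ℕ} (hc : m % 5 = c) (lB lZ : List (ℕ × ℕ))
    (hn : ((lB ++ lZ).map Prod.fst).Nodup ∧ (lB ++ lZ).length ≤ 20) (hB : ∀ h ∈ lB, FB c h)
    (hZ : ∀ h ∈ lZ, FZ c r h) (hr : (r * (m % 3)) % 3 = 2)
    (hs : 1048576 * G m ≤ sumL tabA (m % 390625) lB + sumL tabB (m % 390625) lZ) : Concl m := by
  refine concl_of_list (lB ++ lZ) hn.1 hn.2 (fun h hh => ?_) ?_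
  · rcases List.mem_append.mp hh with h1 | h1
    · exact factB hc (hB h h1)
    · exact factZ hc (hZ h h1) hr
  · rw [List.map_append, List.sum_append, sumB hc lB hB, sumZ hc lZ hZ hr]; exact hs

lemma concl_E {c m : ℕ} (hc : m % 5 = c) (h3 : m % 3 ≠ 0) (lB lZ : List (ℕ × ℕ))
    (hn : ((lB ++ lZ).map Prod.fst).Nodup ∧ (lB ++ lZ).length ≤ 20) (hB : ∀ h ∈ lB, FB c h)
    (hZ : ∀ h ∈ lZ, FZ c 1 h) (ht : tE lB lZ (m % 390625) = true) : Concl m := by
  unfold tE at ht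
  rw [Bool.and_eq_true] at ht
  have h1 := Nat.le_of_ble_eq_true ht.1
  have h2 := Nat.le_of_ble_eq_true ht.2
  have e : Nat.mod (m % 390625) 78125 = m % 78125 := by
    have : Nat.mod (m % 390625) 78125 = m % 390625 % 78125 := rfl
    omega
  rw [e] at h1 h2
  have hm3 : m % 3 = 1 ∨ m % 3 = 2 := by omega
  rcases hm3 with h | h
  · refine concl_B hc lB lZ hn hB ?_
    unfold G
    rw [if_pos h]
    exact h1
  · refine concl_Z hc lB lZ hn hB hZ (by rw [h]) ?_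
    unfold G
    rw [if_neg (by omega)]
    exact h2

lemma concl_O {c m : ℕ} (hc : m % 5 = c) (h3 : m % 3 ≠ 0) (lB lZ : List (ℕ × ℕ))
    (hn : ((lB ++ lZ).map Prod.fst).Nodup ∧ (lB ++ lZ).length ≤ 20) (hB : ∀ h ∈ lB, FB c h)
    (hZ : ∀ h ∈ lZ, FZ c 2 h) (ht : tO lB lZ (m % 390625) = true) : Concl m := by
  unfold tO at ht
  rw [Bool.and_eq_true] at ht
  have h1 := Nat.le_of_ble_eq_true ht.1
  have h2 := Nat.le_of_ble_eq_true ht.2
  have e : Nat.mod (m % 390625) 78125 = m % 78125 := by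
    have : Nat.mod (m % 390625) 78125 = m % 390625 % 78125 := rfl
    omega
  rw [e] at h1 h2
  have hm3 : m % 3 = 1 ∨ m % 3 = 2 := by omega
  rcases hm3 with h | h
  · refine concl_Z hc lB lZ hn hB hZ (by rw [h]) ?_
    unfold G
    rw [if_pos h]
    exact h2
  · refine concl_B hc lB lZ hn hB ?_
    unfold G
    rw [if_neg (by omega)]
    exact h1

lemma concl_all (m : ℕ) (hU : U m) (h5 : m % 5 ≠ 0) : Concl m := by
  have ht := t5_all ((m % 390625) / 5) (by omega)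
  unfold t5 at ht
  simp only [Bool.and_eq_true] at ht
  have e : ∀ c, Nat.add (Nat.mul 5 ((m % 390625) / 5)) c = 5 * ((m % 390625) / 5) + c :=
    fun _ => rfl
  rw [e, e, e, e] at ht
  have hc : m % 5 = 1 ∨ m % 5 = 2 ∨ m % 5 = 3 ∨ m % 5 = 4 := by omega
  rcases hc with hc | hc | hc | hc
  · rw [show 5 * ((m % 390625) / 5) + 1 = m % 390625 by omega] at ht
    exact concl_E hc hU.2 lB0 lZ0 nd0 fB0 fZ0 ht.1.1
  · rw [show 5 * ((m % 390625) / 5) + 2 = m % 390625 by omega] at ht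
    exact concl_O hc hU.2 lB1 lZ1 nd1 fB1 fZ1 ht.1.2
  · rw [show 5 * ((m % 390625) / 5) + 3 = m % 390625 by omega] at ht
    exact concl_O hc hU.2 lB3 lZ3 nd3 fB3 fZ3 ht.2.1
  · rw [show 5 * ((m % 390625) / 5) + 4 = m % 390625 by omega] at ht
    exact concl_E hc hU.2 lB2 lZ2 nd2 fB2 fZ2 ht.2.2

theorem good : Good G where
  le m := by
    unfold G
    split_ifs
    · exact get_le _ _
    · exact get_le _ _
  zero m h := by
    have := tab_zero (m % 78125) (by omega) (by omega)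
    unfold G
    split_ifs
    · exact this.1
    · exact this.2
  pos m h := by
    have := tab_pos (m % 78125) (by omega) (by omega)
    unfold G
    split_ifs
    · exact this.1
    · exact this.2
  ineq m hU h5 := concl_all m hU h5

end B9
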