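import Pool.Agent.Lib.MP_a4658c_nt.B9.Chk

namespace B9

theorem b_136 : blk t5 8 (256 * 136) = true := by decide +kernel

theorem b_137 : blk t5 8 (256 * 137) = true := by decide +kernel

theorem b_138 : blk t5 8 (256 * 138) = true := by decide +kernel

theorem b_139 : blk t5 8 (256 * 139) = true := by decide +kernel

theorem b_140 : blk t5 8 (256 * 140) = true := by decide +kernel

theorem b_141 : blk t5 8 (256 * 141) = true := by decide +kernel

theorem b_142 : blk t5 8 (256 * 142) = true := by decide +kernel

theorem b_143 : blk t5 8 (256 * 143) = true := by decide +kernel

theorem b_144 : blk t5 8 (256 * 144) = true := by decide +kernel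

theorem b_145 : blk t5 8 (256 * 145) = true := by decide +kernel

theorem b_146 : blk t5 8 (256 * 146) = true := by decide +kernel

theorem b_147 : blk t5 8 (256 * 147) = true := by decide +kernel

theorem b_148 : blk t5 8 (256 * 148) = true := by decide +kernel

theorem b_149 : blk t5 8 (256 * 149) = true := by decide +kernel

theorem b_150 : blk t5 8 (256 * 150) = true := by decide +kernel

theorem b_151 : blk t5 8 (256 * 151) = true := by decide +kernel

theorem b_152 : blk t5 8 (256 * 152) = true := by decide +kernel

end B9
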