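import Pool.Agent.Lib.MP_a4658c_nt.B9.TabA
import Pool.Agent.Lib.MP_a4658c_nt.B9.TabB

noncomputable section

namespace B9

/-- Weighted sum over a list of letters `(D, p)`. -/
def sumL (t : Tr) (m : Nat) (l : List (Nat × Nat)) : Nat :=
  List.rec (motive := fun _ => Nat) 0
    (fun h _ ih => Nat.add (Nat.mul h.2 (t.get (Nat.mod (Nat.div (Nat.mul h.1 m) 5) 78125))) ih) l

/-- Letters with a factor 3, discrete logarithm 0 mod 5. -/
def lB0 : List (Nat × Nat) := [(6, 889890), (36, 177419), (96, 73388), (216, 35372), (486, 17049), (576, 14631), (1296, 7052), (1536, 6052), (2916, 3399), (3456, 2917)]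

/-- Letters without a factor 3, discrete logarithm 0 mod 5. -/
def lZ0 : List (Nat × Nat) := [(16, 368099), (256, 30356), (4096, 2503)]

/-- Letters with a factor 3, discrete logarithm 1 mod 5. -/
def lB1 : List (Nat × Nat) := [(18, 331075), (48, 136948), (108, 66007), (288, 27303), (648, 13159), (768, 11294), (1458, 6342), (1728, 5443), (3888, 2623), (4608, 2251)]

/-- Letters without a factor 3, discrete logarithm 1 mod 5. -/
def lZ1 : List (Nat × Nat) := [(8, 686897), (128, 56647), (2048, 4671)]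

/-- Letters with a factor 3, discrete logarithm 2 mod 5. -/
def lB2 : List (Nat × Nat) := [(24, 255554), (54, 123173), (144, 50950), (324, 24557), (384, 21075), (864, 10158), (1944, 4896), (2304, 4201), (4374, 2359), (5184, 2025)]

/-- Letters without a factor 3, discrete logarithm 2 mod 5. -/
def lZ2 : List (Nat × Nat) := [(4, 1281796), (64, 105708), (1024, 8717)]

/-- Letters with a factor 3, discrete logarithm 3 mod 5. -/
def lB3 : List (Nat × Nat) := [(12, 476880), (72, 95076), (162, 45825), (192, 39327), (432, 18955), (972, 9136), (1152, 7840), (2592, 3779), (3072, 3243), (5832, 1821)]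

/-- Letters without a factor 3, discrete logarithm 3 mod 5. -/
def lZ3 : List (Nat × Nat) := [(2, 2391915), (32, 197259), (512, 16267)]

/-- The two inequalities at `m`, even discrete logarithm mod 5. -/
def tE (lB lZ : List (Nat × Nat)) (m : Nat) : Bool :=
  Nat.ble (Nat.mul 1048576 (tabA.get (Nat.mod m 78125))) (sumL tabA m lB) &&
  Nat.ble (Nat.mul 1048576 (tabB.get (Nat.mod m 78125))) (Nat.add (sumL tabA m lB) (sumL tabB m lZ))

/-- The two inequalities at `m`, odd discrete logarithm mod 5. -/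
def tO (lB lZ : List (Nat × Nat)) (m : Nat) : Bool :=
  Nat.ble (Nat.mul 1048576 (tabB.get (Nat.mod m 78125))) (sumL tabA m lB) &&
  Nat.ble (Nat.mul 1048576 (tabA.get (Nat.mod m 78125))) (Nat.add (sumL tabA m lB) (sumL tabB m lZ))

/-- The inequalities at the four units `5 x + 1, ..., 5 x + 4`. -/
def t5 (x : Nat) : Bool :=
  (tE lB0 lZ0 (Nat.add (Nat.mul 5 x) 1) && tO lB1 lZ1 (Nat.add (Nat.mul 5 x) 2)) &&
  (tO lB3 lZ3 (Nat.add (Nat.mul 5 x) 3) && tE lB2 lZ2 (Nat.add (Nat.mul 5 x) 4))

/-- Zero entries at multiples of 5, positive entries elsewhere. -/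
def p5 (x : Nat) : Bool :=
  (Nat.beq (tabA.get (Nat.mul 5 x)) 0 && Nat.beq (tabB.get (Nat.mul 5 x)) 0) &&
  (Nat.ble 1 (tabA.get (Nat.add (Nat.mul 5 x) 1)) && Nat.ble 1 (tabB.get (Nat.add (Nat.mul 5 x) 1))) &&
  (Nat.ble 1 (tabA.get (Nat.add (Nat.mul 5 x) 2)) && Nat.ble 1 (tabB.get (Nat.add (Nat.mul 5 x) 2))) &&
  (Nat.ble 1 (tabA.get (Nat.add (Nat.mul 5 x) 3)) && Nat.ble 1 (tabB.get (Nat.add (Nat.mul 5 x) 3))) &&
  (Nat.ble 1 (tabA.get (Nat.add (Nat.mul 5 x) 4)) && Nat.ble 1 (tabB.get (Nat.add (Nat.mul 5 x) 4)))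

/-- A Boolean test on a block of `2^d` indices starting at `x`. -/
def blk (t : Nat → Bool) (d : Nat) : Nat → Bool :=
  Nat.rec (motive := fun _ => Nat → Bool) (fun x => t x)
    (fun k ih x => ih x && ih (Nat.add x (Nat.pow 2 k))) d

end B9
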