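import Mathlib

/-! The tree of the Kakutani map: predecessors, periodic points, counting. -/

namespace B9

/-- The Kakutani map. -/
def kak (m : ℕ) : ℕ := if 2 ∣ m then m / 2 else if 3 ∣ m then m / 3 else 5 * m + 1

/-- Integers coprime to 6. -/
def U (x : ℕ) : Prop := x % 2 = 1 ∧ x % 3 ≠ 0

lemma kak_two (x : ℕ) : kak (2 * x) = x := by
  unfold kak
  rw [if_pos (by omega)]
  omega

lemma kak_three {x : ℕ} (h : x % 2 = 1) : kak (3 * x) = x := by
  unfold kak
  rw [if_neg (by omega), if_pos (by omega)]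
  omega

lemma kak_U {x : ℕ} (h : U x) : kak x = 5 * x + 1 := by
  obtain ⟨h1, h2⟩ := h
  unfold kak
  rw [if_neg (by omega), if_neg (by omega)]

lemma odd_three (b : ℕ) {x : ℕ} (h : x % 2 = 1) : (3 ^ b * x) % 2 = 1 := by
  rw [← Nat.odd_iff] at h ⊢
  exact (Odd.pow (by decide)).mul h

lemma three_iter {x : ℕ} (h : x % 2 = 1) (b : ℕ) : kak^[b] (3 ^ b * x) = x ∧
    ∀ i < b, ¬ U (kak^[i] (3 ^ b * x)) := by
  induction b with
  | zero => simp
  | succ b ih =>
    have e : 3 ^ (b + 1) * x = 3 * (3 ^ b * x) := by ring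
    have k : kak (3 ^ (b + 1) * x) = 3 ^ b * x := by rw [e]; exact kak_three (odd_three b h)
    refine ⟨by rw [Function.iterate_succ_apply, k]; exact ih.1, fun i hi => ?_⟩
    rcases i with _ | i
    · simp only [Function.iterate_zero, id_eq, U, e]
      rintro ⟨_, h2⟩
      omega
    · rw [Function.iterate_succ_apply, k]
      exact ih.2 i (by omega)

lemma two_iter {x : ℕ} (h : x % 2 = 1) (a b : ℕ) : kak^[a + b] (2 ^ a * (3 ^ b * x)) = x ∧
    ∀ i < a + b, ¬ U (kak^[i] (2 ^ a * (3 ^ b * x))) := by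
  induction a with
  | zero => simpa using three_iter h b
  | succ a ih =>
    have e : 2 ^ (a + 1) * (3 ^ b * x) = 2 * (2 ^ a * (3 ^ b * x)) := by ring
    have k : kak (2 ^ (a + 1) * (3 ^ b * x)) = 2 ^ a * (3 ^ b * x) := by rw [e]; exact kak_two _
    refine ⟨?_, fun i hi => ?_⟩
    · rw [show a + 1 + b = (a + b) + 1 by ring, Function.iterate_succ_apply, k]
      exact ih.1
    · rcases i with _ | i
      · simp only [Function.iterate_zero, id_eq, U, e]
        rintro ⟨h2, _⟩
        omega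
      · rw [Function.iterate_succ_apply, k]
        exact ih.2 i (by omega)

/-- `v` is coprime to 6 and reaches `a` after `s` steps without meeting integers coprime to 6. -/
def Pre (v a s : ℕ) : Prop :=
  U v ∧ 1 ≤ s ∧ kak^[s] v = a ∧ ∀ i, 1 ≤ i → i < s → ¬ U (kak^[i] v)

/-- Periodic points of the Kakutani map. -/
def Per (a : ℕ) : Prop := ∃ k, 1 ≤ k ∧ kak^[k] a = a

lemma pre_of {A b a v : ℕ} (hA : 1 ≤ A) (ha : a % 2 = 1) (hv : 5 * v + 1 = 2 ^ A * (3 ^ b * a))
    (h3 : v % 3 ≠ 0) : Pre v a (A + b + 1) := by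
  have hU : U v := by
    refine ⟨?_, h3⟩
    obtain ⟨A, rfl⟩ : ∃ A', A = A' + 1 := ⟨A - 1, by omega⟩
    have : 5 * v + 1 = 2 * (2 ^ A * (3 ^ b * a)) := by rw [hv]; ring
    omega
  have h := two_iter ha A b
  refine ⟨hU, by omega, ?_, fun i hi1 hi2 => ?_⟩
  · rw [Function.iterate_succ_apply, kak_U hU, hv]
    exact h.1
  · obtain ⟨i, rfl⟩ : ∃ i', i = i' + 1 := ⟨i - 1, by omega⟩
    rw [Function.iterate_succ_apply, kak_U hU, hv]
    exact h.2 i (by omega)

lemma Pre.per {v a s : ℕ} (h : Pre v a s) (hv : Per v) : Per a := by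
  obtain ⟨k, hk, hk2⟩ := hv
  have h1 : Function.IsPeriodicPt kak k v := hk2
  have h2 := h1.apply_iterate s
  rw [h.2.2.1] at h2
  exact ⟨k, hk, h2⟩

lemma Pre.not_hit {v a s : ℕ} (h : Pre v a s) (ha : ¬ Per a) {k : ℕ} (hk : kak^[k] a = v) :
    False := by
  refine ha ⟨s + k, by have := h.2.1; omega, ?_⟩
  rw [Function.iterate_add_apply, hk]
  exact h.2.2.1

lemma disj {v v' a s s' : ℕ} (h : Pre v a s) (h' : Pre v' a s') (hne : v ≠ v') (ha : ¬ Per a)
    {n k l : ℕ} (hk : kak^[k] n = v) (hl : kak^[l] n = v') : False := by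
  have key : ∀ {v v' s s' : ℕ}, Pre v a s → Pre v' a s' → ∀ j, 1 ≤ j → kak^[j] v = v' → False := by
    intro v v' s s' h h' j hj1 hj
    have hs : s ≤ j := by
      by_contra hc
      exact h.2.2.2 j hj1 (by omega) (hj ▸ h'.1)
    obtain ⟨t, rfl⟩ : ∃ t, j = t + s := ⟨j - s, by omega⟩
    rw [Function.iterate_add_apply, h.2.2.1] at hj
    exact h'.not_hit ha hj
  rcases lt_trichotomy k l with hkl | hkl | hkl
  · refine key h h' (l - k) (by omega) ?_
    rw [← hk, ← Function.iterate_add_apply, show l - k + k = l by omega, hl]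
  · exact hne (by rw [← hk, ← hl, hkl])
  · refine key h' h (k - l) (by omega) ?_
    rw [← hl, ← Function.iterate_add_apply, show k - l + l = k by omega, hk]

lemma per_unique {v v' a s s' : ℕ} (h : Pre v a s) (h' : Pre v' a s') (hv : Per v)
    (hv' : Per v') : v = v' := by
  have key : ∀ {v v' s s' : ℕ}, Pre v a s → Pre v' a s' → Per v → Per v' → s ≤ s' → v = v' := by
    intro v v' s s' h h' hv hv' hs
    obtain ⟨k, hk, hk2⟩ := hv
    obtain ⟨k', hk', hk2'⟩ := hv'
    have hs1 := h.2.1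
    set N := k * k' * s with hN
    have hNs : s ≤ N := by
      have : 1 ≤ k * k' := Nat.mul_pos hk hk'
      calc s = 1 * s := (one_mul s).symm
        _ ≤ N := Nat.mul_le_mul_right s this
    have p1 : Function.IsPeriodicPt kak N v := by
      have : Function.IsPeriodicPt kak k v := hk2
      rw [hN, mul_assoc]; exact this.mul_const _
    have p2 : Function.IsPeriodicPt kak N v' := by
      have : Function.IsPeriodicPt kak k' v' := hk2'
      rw [hN, mul_comm k k', mul_assoc]; exact this.mul_const _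
    obtain ⟨r, hr⟩ : ∃ r, N = r + s := ⟨N - s, by omega⟩
    have e1 : v = kak^[r] a := by
      have : kak^[N] v = v := p1
      rw [hr, Function.iterate_add_apply, h.2.2.1] at this
      exact this.symm
    set j := s' - s with hj
    have e2 : kak^[j] v' = kak^[r] a := by
      have : kak^[N] (kak^[j] v') = kak^[j] v' := p2.apply_iterate j
      rw [hr, Function.iterate_add_apply, ← Function.iterate_add_apply kak s j,
        show s + j = s' by omega, h'.2.2.1] at this
      exact this.symm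
    rcases Nat.eq_zero_or_pos j with h0 | h0
    · rw [h0, Function.iterate_zero, id_eq] at e2
      rw [e1, e2]
    · exfalso
      refine h'.2.2.2 j h0 (by omega) ?_
      rw [e2, ← e1]
      exact h.1
  rcases le_total s s' with hs | hs
  · exact key h h' hv hv' hs
  · exact (key h' h hv' hv hs).symm

open Classical in
/-- The number of `n ≤ X` whose orbit contains `m`. -/
noncomputable def Q (m X : ℕ) : ℕ :=
  ((Finset.Icc 1 X).filter (fun n => ∃ k, kak^[k] n = m)).card

lemma Q_lt {v a s X : ℕ} (h : Pre v a s) (ha : ¬ Per a) (ha1 : 1 ≤ a) (haX : a ≤ X) :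
    Q v X < Q a X := by
  classical
  unfold Q
  refine Finset.card_lt_card ⟨?_, ?_⟩
  · intro n hn
    simp only [Finset.mem_filter, Finset.mem_Icc] at hn ⊢
    obtain ⟨hn1, k, hk⟩ := hn
    refine ⟨hn1, s + k, ?_⟩
    rw [Function.iterate_add_apply, hk]
    exact h.2.2.1
  · intro hc
    have : a ∈ (Finset.Icc 1 X).filter (fun n => ∃ k, kak^[k] n = a) := by
      simp only [Finset.mem_filter, Finset.mem_Icc]
      exact ⟨⟨ha1, haX⟩, 0, rfl⟩
    have h2 := hc this
    simp only [Finset.mem_filter, Finset.mem_Icc] at h2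
    obtain ⟨_, k, hk⟩ := h2
    exact h.not_hit ha hk

lemma Q_le {v a s X : ℕ} (h : Pre v a s) : Q v X ≤ Q a X := by
  classical
  unfold Q
  refine Finset.card_le_card ?_
  intro n hn
  simp only [Finset.mem_filter, Finset.mem_Icc] at hn ⊢
  obtain ⟨hn1, k, hk⟩ := hn
  refine ⟨hn1, s + k, ?_⟩
  rw [Function.iterate_add_apply, hk]
  exact h.2.2.1

lemma Q_pos {a X : ℕ} (ha1 : 1 ≤ a) (haX : a ≤ X) : 1 ≤ Q a X := by
  classical
  unfold Q
  refine Finset.card_pos.mpr ⟨a, ?_⟩
  simp only [Finset.mem_filter, Finset.mem_Icc]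
  exact ⟨⟨ha1, haX⟩, 0, rfl⟩

/-- The basins of the predecessors are disjoint and do not contain `a`. -/
lemma Q_sum {ι : Type*} (S : Finset ι) (c : ι → ℕ) {a X : ℕ}
    (hc : ∀ i ∈ S, ∃ s, Pre (c i) a s) (hinj : ∀ i ∈ S, ∀ j ∈ S, c i = c j → i = j)
    (ha : ¬ Per a) (ha1 : 1 ≤ a) (haX : a ≤ X) : 1 + ∑ i ∈ S, Q (c i) X ≤ Q a X := by
  classical
  have hd : ∀ i ∈ S, ∀ j ∈ S, i ≠ j →
      Disjoint ((Finset.Icc 1 X).filter (fun n => ∃ k, kak^[k] n = c i))
        ((Finset.Icc 1 X).filter (fun n => ∃ k, kak^[k] n = c j)) := by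
    intro i hi j hj hij
    rw [Finset.disjoint_left]
    intro n hn hn'
    simp only [Finset.mem_filter, Finset.mem_Icc] at hn hn'
    obtain ⟨_, k, hk⟩ := hn
    obtain ⟨_, l, hl⟩ := hn'
    obtain ⟨s, hs⟩ := hc i hi
    obtain ⟨s', hs'⟩ := hc j hj
    exact disj hs hs' (fun h => hij (hinj i hi j hj h)) ha hk hl
  have e : ∑ i ∈ S, Q (c i) X
      = (S.biUnion fun i => (Finset.Icc 1 X).filter (fun n => ∃ k, kak^[k] n = c i)).card := by
    rw [Finset.card_biUnion hd]
    rfl
  have hna : a ∉ S.biUnion fun i => (Finset.Icc 1 X).filter (fun n => ∃ k, kak^[k] n = c i) := by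
    intro h
    simp only [Finset.mem_biUnion, Finset.mem_filter, Finset.mem_Icc] at h
    obtain ⟨i, hi, _, k, hk⟩ := h
    obtain ⟨s, hs⟩ := hc i hi
    exact hs.not_hit ha hk
  rw [e, add_comm, ← Finset.card_insert_of_notMem hna]
  unfold Q
  refine Finset.card_le_card ?_
  intro n hn
  simp only [Finset.mem_insert, Finset.mem_biUnion, Finset.mem_filter, Finset.mem_Icc] at hn ⊢
  rcases hn with rfl | ⟨i, hi, hn1, k, hk⟩
  · exact ⟨⟨ha1, haX⟩, 0, rfl⟩
  · obtain ⟨s, hs⟩ := hc i hi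
    refine ⟨hn1, s + k, ?_⟩
    rw [Function.iterate_add_apply, hk]
    exact hs.2.2.1

end B9
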