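import Pool.Agent.Lib.MP_a4658c_nt.B9.Core

/-! From odd `a` to the exact set of integers with a large basin. -/

namespace B9

lemma kak_pow_two (k a : ℕ) : kak^[k] (2 ^ k * a) = a := by
  induction k with
  | zero => simp
  | succ k ih =>
    have e : 2 ^ (k + 1) * a = 2 * (2 ^ k * a) := by ring
    rw [Function.iterate_succ_apply, e, kak_two]
    exact ih

lemma exists_shift (r : ℕ) (hr : r < 75) (h5 : r % 5 ≠ 0)
    (h : r % 3 = 0 ∨ r % 15 = 7 ∨ r % 15 = 11 ∨ r % 15 = 13 ∨ r % 15 = 14) :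
    ∃ k < 8, (2 ^ k * r) % 5 = 1 ∧ (2 ^ k * r) % 25 ≠ 1 ∧ (2 ^ k * r) % 3 ≠ 1 := by
  revert r
  decide

lemma pre_key {M a : ℕ} (c1 : M % 5 = 1) (c2 : M % 25 ≠ 1) (c3 : M % 3 ≠ 1) (c4 : M % 2 = 0)
    (c5 : M ≤ 128 * a) :
    ∃ n, M = 5 * n + 1 ∧ n % 2 = 1 ∧ n % 3 ≠ 0 ∧ n % 5 ≠ 0 ∧ n ≤ 26 * a := by
  obtain ⟨n, rfl⟩ : ∃ n, M = 5 * n + 1 := ⟨M / 5, by omega⟩
  refine ⟨n, rfl, ?_, ?_, ?_, ?_⟩
  · omega
  · clear c1 c2 c4 c5
    intro h
    apply c3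
    omega
  · clear c1 c3 c4 c5
    intro h
    apply c2
    omega
  · omega

/-- For even `a` in the good classes a predecessor coprime to 30. -/
lemma exists_odd_pre {a : ℕ} (ha : a % 2 = 0) (h5 : a % 5 ≠ 0)
    (h : a % 3 = 0 ∨ a % 15 = 7 ∨ a % 15 = 11 ∨ a % 15 = 13 ∨ a % 15 = 14) :
    ∃ n s : ℕ, n % 2 = 1 ∧ n % 5 ≠ 0 ∧ n ≤ 26 * a ∧ kak^[s] n = a := by
  obtain ⟨k, hk, h1, h2, h3⟩ := exists_shift (a % 75) (Nat.mod_lt _ (by norm_num)) (by omega)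
    (by omega)
  have m5 : (2 ^ k * a) % 5 = 1 := by
    rw [← h1, Nat.mul_mod, Nat.mul_mod (2 ^ k) (a % 75) 5]
    congr 2
    omega
  have m25 : (2 ^ k * a) % 25 ≠ 1 := by
    intro e
    apply h2
    rw [← e, Nat.mul_mod, Nat.mul_mod (2 ^ k) a 25]
    congr 2
    omega
  have m3 : (2 ^ k * a) % 3 ≠ 1 := by
    intro e
    apply h3
    rw [← e, Nat.mul_mod, Nat.mul_mod (2 ^ k) a 3]
    congr 2
    omega
  have m2 : (2 ^ k * a) % 2 = 0 := by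
    rw [Nat.mul_mod, ha, mul_zero, Nat.zero_mod]
  have hle : 2 ^ k * a ≤ 128 * a := by
    apply Nat.mul_le_mul_right
    calc 2 ^ k ≤ 2 ^ 7 := Nat.pow_le_pow_right (by norm_num) (by omega)
      _ = 128 := by norm_num
  obtain ⟨n, hn, n2, n3, n5, n26⟩ := pre_key m5 m25 m3 m2 hle
  refine ⟨n, k + 1, n2, n5, n26, ?_⟩
  rw [Function.iterate_succ_apply, kak_U ⟨n2, n3⟩, ← hn]
  exact kak_pow_two k a

lemma Q_mono_pre {n a s X : ℕ} (h : kak^[s] n = a) : Q n X ≤ Q a X := by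
  classical
  unfold Q
  apply Finset.card_le_card
  intro m hm
  rw [Finset.mem_filter] at hm ⊢
  obtain ⟨h1, k, h2⟩ := hm
  refine ⟨h1, s + k, ?_⟩
  rw [Function.iterate_add_apply, h2, h]

lemma one_le_Q {a X : ℕ} (h1 : 1 ≤ a) (h : a ≤ X) : 1 ≤ Q a X := by
  classical
  unfold Q
  rw [Nat.one_le_iff_ne_zero, Finset.card_ne_zero]
  exact ⟨a, by rw [Finset.mem_filter, Finset.mem_Icc]; exact ⟨⟨h1, h⟩, 0, rfl⟩⟩

theorem ext_of (h : ∃ c : ℝ, 0 < c ∧ ∀ a X : ℕ, a % 2 = 1 → a % 5 ≠ 0 → a ≤ X →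
      c * ((X : ℝ) / a) ^ (9 / 10 : ℝ) ≤ (Q a X : ℝ)) :
    ∃ c : ℝ, 0 < c ∧ ∀ a X : ℕ, a % 5 ≠ 0 →
      (a % 2 = 1 ∨ a % 3 = 0 ∨ a % 15 = 7 ∨ a % 15 = 11 ∨ a % 15 = 13 ∨ a % 15 = 14) → a ≤ X →
      c * ((X : ℝ) / a) ^ (9 / 10 : ℝ) ≤ (Q a X : ℝ) := by
  obtain ⟨c, hc, h⟩ := h
  have h26 : (0 : ℝ) < (1 / 26 : ℝ) ^ (9 / 10 : ℝ) := by positivity
  have h26' : (1 / 26 : ℝ) ^ (9 / 10 : ℝ) ≤ 1 :=
    Real.rpow_le_one (by norm_num) (by norm_num) (by norm_num)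
  refine ⟨min c 1 * (1 / 26 : ℝ) ^ (9 / 10 : ℝ), by positivity, fun a X h5 hcl haX => ?_⟩
  have ha : 0 < a := by omega
  have ha' : (0 : ℝ) < a := by exact_mod_cast ha
  have hP : (0 : ℝ) ≤ ((X : ℝ) / a) ^ (9 / 10 : ℝ) := by positivity
  by_cases h2 : a % 2 = 1
  · refine le_trans ?_ (h a X h2 h5 haX)
    apply mul_le_mul_of_nonneg_right _ hP
    calc min c 1 * (1 / 26 : ℝ) ^ (9 / 10 : ℝ) ≤ c * 1 := by
          apply mul_le_mul (min_le_left _ _) h26' h26.le hc.le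
      _ = c := mul_one c
  · obtain ⟨n, s, n2, n5, hle, hs⟩ := exists_odd_pre (a := a) (by omega) h5 (by omega)
    have hn : 0 < n := by omega
    have hn' : (0 : ℝ) < n := by exact_mod_cast hn
    have hle' : (n : ℝ) ≤ 26 * a := by exact_mod_cast hle
    have e : (1 / 26 : ℝ) ^ (9 / 10 : ℝ) * ((X : ℝ) / a) ^ (9 / 10 : ℝ)
        = ((X : ℝ) / (26 * a)) ^ (9 / 10 : ℝ) := by
      rw [← Real.mul_rpow (by norm_num) (by positivity)]
      congr 1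
      field_simp
    rw [mul_assoc, e]
    by_cases hX : n ≤ X
    · have h1 : ((X : ℝ) / (26 * a)) ^ (9 / 10 : ℝ) ≤ ((X : ℝ) / n) ^ (9 / 10 : ℝ) := by
        apply Real.rpow_le_rpow (by positivity) _ (by norm_num)
        apply div_le_div_of_nonneg_left (by positivity) hn' hle'
      calc min c 1 * ((X : ℝ) / (26 * a)) ^ (9 / 10 : ℝ)
          ≤ c * ((X : ℝ) / n) ^ (9 / 10 : ℝ) :=
            mul_le_mul (min_le_left _ _) h1 (by positivity) hc.le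
        _ ≤ (Q n X : ℝ) := h n X n2 n5 hX
        _ ≤ (Q a X : ℝ) := by exact_mod_cast Q_mono_pre hs
    · have h1 : ((X : ℝ) / (26 * a)) ^ (9 / 10 : ℝ) ≤ 1 := by
        apply Real.rpow_le_one (by positivity) _ (by norm_num)
        rw [div_le_one (by positivity)]
        have : (X : ℝ) ≤ n := by exact_mod_cast (by omega : X ≤ n)
        linarith
      have h2 : (1 : ℝ) ≤ (Q a X : ℝ) := by exact_mod_cast one_le_Q ha haX
      calc min c 1 * ((X : ℝ) / (26 * a)) ^ (9 / 10 : ℝ) ≤ 1 * 1 :=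
            mul_le_mul (min_le_right _ _) h1 (by positivity) (by norm_num)
        _ = 1 := mul_one 1
        _ ≤ _ := h2

/-- One step backwards from a multiple of 5. -/
lemma pre_five {m n : ℕ} (h5 : m % 5 = 0) (h : kak n = m) : n = 2 * m ∨ n = 3 * m := by
  unfold kak at h
  split_ifs at h with h2 h3 <;> omega

/-- One step backwards from an even `m` congruent to 1, 2, 4, 8 mod 15. -/
lemma pre_fifteen {m n : ℕ} (h2 : m % 2 = 0)
    (h15 : m % 15 = 1 ∨ m % 15 = 2 ∨ m % 15 = 4 ∨ m % 15 = 8) (h : kak n = m) : n = 2 * m := by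
  unfold kak at h
  split_ifs at h with h2 h3 <;> omega

lemma pow_fifteen (i a : ℕ) (h15 : a % 15 = 1 ∨ a % 15 = 2 ∨ a % 15 = 4 ∨ a % 15 = 8) :
    (2 ^ i * a) % 15 = 1 ∨ (2 ^ i * a) % 15 = 2 ∨ (2 ^ i * a) % 15 = 4 ∨
      (2 ^ i * a) % 15 = 8 := by
  induction i with
  | zero => simpa using h15
  | succ i ih =>
    have e : 2 ^ (i + 1) * a = 2 * (2 ^ i * a) := by ring
    rw [e]
    omega

theorem small_basin {a : ℕ} (h : a % 5 = 0 ∨
      (a % 2 = 0 ∧ (a % 15 = 1 ∨ a % 15 = 2 ∨ a % 15 = 4 ∨ a % 15 = 8))) :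
    ∀ k n : ℕ, kak^[k] n = a → ∃ i j : ℕ, n = 2 ^ i * 3 ^ j * a := by
  rcases h with h5 | ⟨h2, h15⟩
  · intro k
    induction k with
    | zero => intro n hn; exact ⟨0, 0, by simpa using hn⟩
    | succ k ih =>
      intro n hn
      rw [Function.iterate_succ_apply] at hn
      obtain ⟨i, j, e⟩ := ih (kak n) hn
      have h5' : (2 ^ i * 3 ^ j * a) % 5 = 0 := by rw [Nat.mul_mod, h5, mul_zero, Nat.zero_mod]
      rcases pre_five h5' e with e | e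
      · exact ⟨i + 1, j, by rw [e]; ring⟩
      · exact ⟨i, j + 1, by rw [e]; ring⟩
  · intro k n hn
    suffices hs : ∀ k n : ℕ, kak^[k] n = a → ∃ i : ℕ, n = 2 ^ i * a by
      obtain ⟨i, hi⟩ := hs k n hn
      exact ⟨i, 0, by simpa using hi⟩
    clear hn n k
    intro k
    induction k with
    | zero => intro n hn; exact ⟨0, by simpa using hn⟩
    | succ k ih =>
      intro n hn
      rw [Function.iterate_succ_apply] at hn
      obtain ⟨i, e⟩ := ih (kak n) hn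
      have h2' : (2 ^ i * a) % 2 = 0 := by rw [Nat.mul_mod, h2, mul_zero, Nat.zero_mod]
      have e' := pre_fifteen h2' (pow_fifteen i a h15) e
      exact ⟨i + 1, by rw [e']; ring⟩

end B9
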