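import Pool.Agent.Lib.MP_a4658c_nt.B9.Core

/-! The difference inequality argument: a test function `G` gives a lower bound for all basins. -/

namespace B9

/-- The properties of the test function used in the proof. -/
structure Good (G : ℕ → ℕ) : Prop where
  le : ∀ m, G m ≤ 65535
  zero : ∀ m, m % 5 = 0 → G m = 0
  pos : ∀ m, m % 5 ≠ 0 → 1 ≤ G m
  ineq : ∀ m, U m → m % 5 ≠ 0 → ∃ S : Finset (ℕ × ℕ), S.card ≤ 20 ∧
    (∀ h ∈ S, ∀ h' ∈ S, h.1 = h'.1 → h = h') ∧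
    (∀ h ∈ S, (∃ A b, 1 ≤ A ∧ h.1 = 2 ^ A * 3 ^ b) ∧ (h.1 * m) % 5 = 1 ∧
      (h.1 * m / 5) % 3 ≠ 0 ∧ h.2 ^ 10 * h.1 ^ 9 ≤ 5 ^ 9 * 1048576 ^ 10) ∧
    1048576 * G m ≤ ∑ h ∈ S, h.2 * G (h.1 * m / 5)

lemma weight_le {D p : ℕ} (hD : 0 < D) (h : p ^ 10 * D ^ 9 ≤ 5 ^ 9 * 1048576 ^ 10) :
    (p : ℝ) / 1048576 ≤ (5 / (D : ℝ)) ^ (9 / 10 : ℝ) := by
  have hD' : (0 : ℝ) < D := by exact_mod_cast hD
  have h' : (p : ℝ) ^ 10 * (D : ℝ) ^ 9 ≤ 5 ^ 9 * 1048576 ^ 10 := by exact_mod_cast h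
  have h1 : ((p : ℝ) / 1048576) ^ 10 ≤ (5 / (D : ℝ)) ^ 9 := by
    rw [div_pow, div_pow, div_le_div_iff₀ (by positivity) (by positivity)]
    linarith
  have h2 : (p : ℝ) / 1048576 = (((p : ℝ) / 1048576) ^ 10) ^ (1 / 10 : ℝ) := by
    rw [← Real.rpow_natCast, ← Real.rpow_mul (by positivity)]
    norm_num
  have h3 : (5 / (D : ℝ)) ^ (9 / 10 : ℝ) = ((5 / (D : ℝ)) ^ 9) ^ (1 / 10 : ℝ) := by
    rw [← Real.rpow_natCast, ← Real.rpow_mul (by positivity)]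
    norm_num
  rw [h2, h3]
  exact Real.rpow_le_rpow (by positivity) h1 (by norm_num)

/-- One step of the test function. -/
lemma step_weight {D p m : ℕ} (hD : 0 < D) (hm : 0 < m) (hm1 : (D * m) % 5 = 1)
    (hv : 0 < D * m / 5) (h : p ^ 10 * D ^ 9 ≤ 5 ^ 9 * 1048576 ^ 10) :
    (p : ℝ) * (m : ℝ) ^ (-(9 / 10 : ℝ)) ≤
      1048576 * ((D * m / 5 : ℕ) : ℝ) ^ (-(9 / 10 : ℝ)) := by
  have hD' : (0 : ℝ) < D := by exact_mod_cast hD
  have hm' : (0 : ℝ) < m := by exact_mod_cast hm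
  have hv' : (0 : ℝ) < ((D * m / 5 : ℕ) : ℝ) := by exact_mod_cast hv
  have h1 := weight_le hD h
  have h2 : ((D * m / 5 : ℕ) : ℝ) ≤ (D : ℝ) / 5 * m := by
    have : 5 * (D * m / 5) ≤ D * m := by omega
    have : (5 : ℝ) * ((D * m / 5 : ℕ) : ℝ) ≤ (D : ℝ) * m := by exact_mod_cast this
    linarith
  have h3 : ((D : ℝ) / 5 * m) ^ (-(9 / 10 : ℝ)) ≤ ((D * m / 5 : ℕ) : ℝ) ^ (-(9 / 10 : ℝ)) :=
    Real.rpow_le_rpow_of_nonpos hv' h2 (by norm_num)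
  have h4 : ((D : ℝ) / 5 * m) ^ (-(9 / 10 : ℝ))
      = (5 / (D : ℝ)) ^ (9 / 10 : ℝ) * (m : ℝ) ^ (-(9 / 10 : ℝ)) := by
    rw [Real.mul_rpow (by positivity) hm'.le]
    congr 1
    rw [Real.rpow_neg (by positivity), ← Real.inv_rpow (by positivity), inv_div]
  rw [h4] at h3
  have h5 : (0 : ℝ) ≤ (m : ℝ) ^ (-(9 / 10 : ℝ)) := by positivity
  have h6 := mul_le_mul_of_nonneg_right h1 h5
  calc (p : ℝ) * (m : ℝ) ^ (-(9 / 10 : ℝ))
      = 1048576 * ((p : ℝ) / 1048576 * (m : ℝ) ^ (-(9 / 10 : ℝ))) := by ring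
    _ ≤ 1048576 * ((5 / (D : ℝ)) ^ (9 / 10 : ℝ) * (m : ℝ) ^ (-(9 / 10 : ℝ))) := by linarith
    _ ≤ _ := by linarith

/-- The constant. -/
noncomputable def Del : ℝ := 1 / (20 * 65535)

lemma Del_pos : 0 < Del := by unfold Del; norm_num

/-- The main induction. -/
theorem basin_lower {G : ℕ → ℕ} (hG : Good G) : ∀ N m X : ℕ, Q m X = N → U m → ¬ Per m → m ≤ X →
    Del * (X : ℝ) ^ (9 / 10 : ℝ) * ((G m : ℝ) * (m : ℝ) ^ (-(9 / 10 : ℝ))) ≤ (Q m X : ℝ) := by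
  intro N
  induction N using Nat.strong_induction_on with
  | _ N ih =>
  intro m X hN hU hP hmX
  have hm : 0 < m := by
    rcases Nat.eq_zero_or_pos m with h | h
    · subst h; exact absurd hU.1 (by norm_num)
    · exact h
  by_cases h5 : m % 5 = 0
  · rw [hG.zero m h5]
    simp
  obtain ⟨S, hcard, hinj, hS, hsum⟩ := hG.ineq m hU h5
  have hX : 0 < X := by omega
  have hX' : (0 : ℝ) < X := by exact_mod_cast hX
  set Xp : ℝ := (X : ℝ) ^ (9 / 10 : ℝ) with hXp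
  have hXp0 : 0 < Xp := Real.rpow_pos_of_pos hX' _
  set Xn : ℝ := (X : ℝ) ^ (-(9 / 10 : ℝ)) with hXn
  have hXX : Xp * Xn = 1 := by
    rw [hXp, hXn, ← Real.rpow_add hX']; norm_num
  -- facts on the letters
  have hDpos : ∀ h ∈ S, 0 < h.1 := by
    intro h hh
    obtain ⟨⟨A, b, _, e⟩, _⟩ := hS h hh
    rw [e]; positivity
  have h5v : ∀ h ∈ S, 5 * (h.1 * m / 5) + 1 = h.1 * m := by
    intro h hh
    have := (hS h hh).2.1
    omega
  have hpre : ∀ h ∈ S, ∃ s, Pre (h.1 * m / 5) m s := by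
    intro h hh
    obtain ⟨⟨A, b, hA, e⟩, _, h3, _⟩ := hS h hh
    refine ⟨A + b + 1, pre_of hA hU.1 ?_ h3⟩
    rw [h5v h hh, e, mul_assoc]
  have hvpos : ∀ h ∈ S, 0 < h.1 * m / 5 := by
    intro h hh
    obtain ⟨s, hs⟩ := hpre h hh
    rcases Nat.eq_zero_or_pos (h.1 * m / 5) with h0 | h0
    · have := hs.1.1
      rw [h0] at this
      exact absurd this (by norm_num)
    · exact h0
  -- the inequality for f = G m * m^(-9/10)
  have hf : (G m : ℝ) * (m : ℝ) ^ (-(9 / 10 : ℝ)) ≤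
      ∑ h ∈ S, (G (h.1 * m / 5) : ℝ) * ((h.1 * m / 5 : ℕ) : ℝ) ^ (-(9 / 10 : ℝ)) := by
    have h1 : (1048576 : ℝ) * (G m : ℝ) ≤ ∑ h ∈ S, (h.2 : ℝ) * (G (h.1 * m / 5) : ℝ) := by
      exact_mod_cast hsum
    have h0 : (0 : ℝ) ≤ (m : ℝ) ^ (-(9 / 10 : ℝ)) := by positivity
    have h2 := mul_le_mul_of_nonneg_right h1 h0
    rw [Finset.sum_mul] at h2
    have h3 : ∑ h ∈ S, (h.2 : ℝ) * (G (h.1 * m / 5) : ℝ) * (m : ℝ) ^ (-(9 / 10 : ℝ)) ≤
        ∑ h ∈ S, 1048576 * ((G (h.1 * m / 5) : ℝ) *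
          ((h.1 * m / 5 : ℕ) : ℝ) ^ (-(9 / 10 : ℝ))) := by
      refine Finset.sum_le_sum fun h hh => ?_
      have h4 := step_weight (hDpos h hh) hm (hS h hh).2.1 (hvpos h hh) (hS h hh).2.2.2
      have h5 : (0 : ℝ) ≤ (G (h.1 * m / 5) : ℝ) := by positivity
      have h6 := mul_le_mul_of_nonneg_left h4 h5
      calc (h.2 : ℝ) * (G (h.1 * m / 5) : ℝ) * (m : ℝ) ^ (-(9 / 10 : ℝ))
          = (G (h.1 * m / 5) : ℝ) * ((h.2 : ℝ) * (m : ℝ) ^ (-(9 / 10 : ℝ))) := by ring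
        _ ≤ _ := h6
        _ = _ := by ring
    rw [← Finset.mul_sum] at h3
    have h7 : (1048576 : ℝ) * ((G m : ℝ) * (m : ℝ) ^ (-(9 / 10 : ℝ))) ≤
        1048576 * ∑ h ∈ S, (G (h.1 * m / 5) : ℝ) *
          ((h.1 * m / 5 : ℕ) : ℝ) ^ (-(9 / 10 : ℝ)) := by
      calc _ = 1048576 * (G m : ℝ) * (m : ℝ) ^ (-(9 / 10 : ℝ)) := by ring
        _ ≤ _ := h2
        _ ≤ _ := h3
    linarith
  -- termwise lower bound of the counts
  have hterm : ∀ h ∈ S, Del * Xp * ((G (h.1 * m / 5) : ℝ) *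
      ((h.1 * m / 5 : ℕ) : ℝ) ^ (-(9 / 10 : ℝ))) ≤ (Q (h.1 * m / 5) X : ℝ) + 1 / 20 := by
    intro h hh
    obtain ⟨s, hs⟩ := hpre h hh
    rcases le_or_gt (h.1 * m / 5) X with hle | hgt
    · have h1 := ih (Q (h.1 * m / 5) X) (hN ▸ Q_lt hs hP hm hmX) (h.1 * m / 5) X rfl hs.1
        (fun hp => hP (hs.per hp)) hle
      linarith
    · have h1 : ((h.1 * m / 5 : ℕ) : ℝ) ^ (-(9 / 10 : ℝ)) ≤ Xn := by
        rw [hXn]
        exact Real.rpow_le_rpow_of_nonpos hX' (by exact_mod_cast hgt.le) (by norm_num)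
      have h2 : (G (h.1 * m / 5) : ℝ) ≤ 65535 := by exact_mod_cast hG.le _
      have h3 : (G (h.1 * m / 5) : ℝ) * ((h.1 * m / 5 : ℕ) : ℝ) ^ (-(9 / 10 : ℝ)) ≤ 65535 * Xn :=
        mul_le_mul h2 h1 (by positivity) (by norm_num)
      have h4 : Del * Xp * ((G (h.1 * m / 5) : ℝ) *
          ((h.1 * m / 5 : ℕ) : ℝ) ^ (-(9 / 10 : ℝ))) ≤ Del * Xp * (65535 * Xn) :=
        mul_le_mul_of_nonneg_left h3 (by have := Del_pos; positivity)
      have h5 : Del * Xp * (65535 * Xn) = 1 / 20 := by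
        calc Del * Xp * (65535 * Xn) = Del * 65535 * (Xp * Xn) := by ring
          _ = 1 / 20 := by rw [hXX]; unfold Del; norm_num
      have h6 : (0 : ℝ) ≤ (Q (h.1 * m / 5) X : ℝ) := by positivity
      linarith
  have hcount : (1 : ℝ) + ∑ h ∈ S, (Q (h.1 * m / 5) X : ℝ) ≤ (Q m X : ℝ) := by
    have := Q_sum S (fun h => h.1 * m / 5) (X := X) hpre
      (fun i hi j hj hij => hinj i hi j hj (by
        have h1 := h5v i hi
        have h2 := h5v j hj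
        have h3 : i.1 * m = j.1 * m := by
          have : i.1 * m / 5 = j.1 * m / 5 := hij
          omega
        exact Nat.eq_of_mul_eq_mul_right hm h3)) hP hm hmX
    exact_mod_cast this
  calc Del * Xp * ((G m : ℝ) * (m : ℝ) ^ (-(9 / 10 : ℝ)))
      ≤ Del * Xp * ∑ h ∈ S, (G (h.1 * m / 5) : ℝ) *
          ((h.1 * m / 5 : ℕ) : ℝ) ^ (-(9 / 10 : ℝ)) :=
        mul_le_mul_of_nonneg_left hf (by have := Del_pos; positivity)
    _ = ∑ h ∈ S, Del * Xp * ((G (h.1 * m / 5) : ℝ) *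
          ((h.1 * m / 5 : ℕ) : ℝ) ^ (-(9 / 10 : ℝ))) := Finset.mul_sum _ _ _
    _ ≤ ∑ h ∈ S, ((Q (h.1 * m / 5) X : ℝ) + 1 / 20) := Finset.sum_le_sum hterm
    _ = ∑ h ∈ S, (Q (h.1 * m / 5) X : ℝ) + S.card * (1 / 20) := by
        rw [Finset.sum_add_distrib, Finset.sum_const, nsmul_eq_mul]
    _ ≤ ∑ h ∈ S, (Q (h.1 * m / 5) X : ℝ) + 1 := by
        have : (S.card : ℝ) ≤ 20 := by exact_mod_cast hcard
        linarith
    _ ≤ (Q m X : ℝ) := by linarith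

/-- Every `a` coprime to 10 has a non-periodic predecessor coprime to 30 below `2458 a`. -/
lemma exists_child {a : ℕ} (h2 : a % 2 = 1) (h5 : a % 5 ≠ 0) :
    ∃ v s, Pre v a s ∧ ¬ Per v ∧ v % 5 ≠ 0 ∧ v ≤ 2458 * a := by
  obtain ⟨A, hA1, hA4, hA⟩ : ∃ A, 1 ≤ A ∧ A ≤ 4 ∧ (2 ^ A * (3 * a)) % 5 = 1 := by
    have : a % 5 = 1 ∨ a % 5 = 2 ∨ a % 5 = 3 ∨ a % 5 = 4 := by omega
    rcases this with h | h | h | h
    · exact ⟨1, by norm_num, by norm_num, by omega⟩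
    · exact ⟨4, by norm_num, by norm_num, by omega⟩
    · exact ⟨2, by norm_num, by norm_num, by omega⟩
    · exact ⟨3, by norm_num, by norm_num, by omega⟩
  set t := 2 ^ A * (3 * a) with ht
  have h16 : t ≤ 48 * a := by
    have : 2 ^ A ≤ 2 ^ 4 := Nat.pow_le_pow_right (by norm_num) hA4
    calc t ≤ 2 ^ 4 * (3 * a) := Nat.mul_le_mul_right _ this
      _ = 48 * a := by ring
  obtain ⟨k, hk⟩ : ∃ k, t = 3 * k := ⟨2 ^ A * a, by rw [ht]; ring⟩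
  have e0 : 5 * (t / 5) + 1 = t := by omega
  have e1 : 5 * (16 * t / 5) + 1 = 16 * t := by omega
  have e2 : 5 * (256 * t / 5) + 1 = 256 * t := by omega
  have p0 : Pre (t / 5) a (A + 1 + 1) := by
    refine pre_of (b := 1) hA1 h2 ?_ (by omega)
    rw [e0, ht]; ring
  have p1 : Pre (16 * t / 5) a (A + 4 + 1 + 1) := by
    refine pre_of (A := A + 4) (b := 1) (by omega) h2 ?_ (by omega)
    rw [e1, ht]; ring
  have p2 : Pre (256 * t / 5) a (A + 8 + 1 + 1) := by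
    refine pre_of (A := A + 8) (b := 1) (by omega) h2 ?_ (by omega)
    rw [e2, ht]; ring
  by_contra hcon
  push Not at hcon
  have c0 : (t / 5) % 5 = 0 ∨ Per (t / 5) := by
    by_cases hp : Per (t / 5)
    · exact Or.inr hp
    · left
      by_contra h
      have := hcon _ _ p0 hp h
      omega
  have c1 : (16 * t / 5) % 5 = 0 ∨ Per (16 * t / 5) := by
    by_cases hp : Per (16 * t / 5)
    · exact Or.inr hp
    · left
      by_contra h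
      have := hcon _ _ p1 hp h
      omega
  have c2 : (256 * t / 5) % 5 = 0 ∨ Per (256 * t / 5) := by
    by_cases hp : Per (256 * t / 5)
    · exact Or.inr hp
    · left
      by_contra h
      have := hcon _ _ p2 hp h
      omega
  have d01 : t / 5 ≠ 16 * t / 5 := by omega
  have d02 : t / 5 ≠ 256 * t / 5 := by omega
  have d12 : 16 * t / 5 ≠ 256 * t / 5 := by omega
  rcases c0 with c0 | c0 <;> rcases c1 with c1 | c1 <;> rcases c2 with c2 | c2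
  · omega
  · omega
  · omega
  · exact d12 (per_unique p1 p2 c1 c2)
  · omega
  · exact d02 (per_unique p0 p2 c0 c2)
  · exact d01 (per_unique p0 p1 c0 c1)
  · exact d01 (per_unique p0 p1 c0 c1)

theorem basin_all {G : ℕ → ℕ} (hG : Good G) : ∃ c : ℝ, 0 < c ∧ ∀ a X : ℕ, a % 2 = 1 →
    a % 5 ≠ 0 → a ≤ X → c * ((X : ℝ) / a) ^ (9 / 10 : ℝ) ≤ (Q a X : ℝ) := by
  have hD := Del_pos
  refine ⟨Del * (1 / 2458 : ℝ) ^ (9 / 10 : ℝ), by positivity, fun a X h2 h5 haX => ?_⟩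
  have ha : 0 < a := by omega
  have hX : 0 < X := by omega
  have ha' : (0 : ℝ) < a := by exact_mod_cast ha
  have hX' : (0 : ℝ) < X := by exact_mod_cast hX
  obtain ⟨v, s, hpre, hper, hv5, hv⟩ := exists_child h2 h5
  have hv0 : 0 < v := by omega
  have hv0' : (0 : ℝ) < v := by exact_mod_cast hv0
  have hvle : (v : ℝ) ≤ 2458 * a := by exact_mod_cast hv
  have e : Del * (1 / 2458 : ℝ) ^ (9 / 10 : ℝ) * ((X : ℝ) / a) ^ (9 / 10 : ℝ)
      = Del * ((X : ℝ) / (2458 * a)) ^ (9 / 10 : ℝ) := by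
    rw [mul_assoc, ← Real.mul_rpow (by positivity) (by positivity)]
    congr 2
    field_simp
  rw [e]
  rcases le_or_gt v X with hvX | hvX
  · have h1 := basin_lower hG (Q v X) v X rfl hpre.1 hper hvX
    have h2 : (1 : ℝ) ≤ (G v : ℝ) := by exact_mod_cast hG.pos v hv5
    have h3 : ((X : ℝ) / (2458 * a)) ^ (9 / 10 : ℝ) ≤ ((X : ℝ) / v) ^ (9 / 10 : ℝ) := by
      refine Real.rpow_le_rpow (by positivity) ?_ (by norm_num)
      exact div_le_div_of_nonneg_left hX'.le hv0' hvle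
    have h4 : ((X : ℝ) / v) ^ (9 / 10 : ℝ)
        = (X : ℝ) ^ (9 / 10 : ℝ) * (v : ℝ) ^ (-(9 / 10 : ℝ)) := by
      rw [Real.div_rpow hX'.le hv0'.le, Real.rpow_neg hv0'.le, div_eq_mul_inv]
    have h5 : (0 : ℝ) ≤ (v : ℝ) ^ (-(9 / 10 : ℝ)) := by positivity
    have h6 : (0 : ℝ) ≤ (X : ℝ) ^ (9 / 10 : ℝ) := by positivity
    have h7 : (v : ℝ) ^ (-(9 / 10 : ℝ)) ≤ (G v : ℝ) * (v : ℝ) ^ (-(9 / 10 : ℝ)) :=
      le_mul_of_one_le_left h5 h2
    have h8 : (Q v X : ℝ) ≤ (Q a X : ℝ) := by exact_mod_cast Q_le hpre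
    calc Del * ((X : ℝ) / (2458 * a)) ^ (9 / 10 : ℝ)
        ≤ Del * ((X : ℝ) ^ (9 / 10 : ℝ) * (v : ℝ) ^ (-(9 / 10 : ℝ))) := by
          rw [← h4]; exact mul_le_mul_of_nonneg_left h3 hD.le
      _ ≤ Del * ((X : ℝ) ^ (9 / 10 : ℝ) * ((G v : ℝ) * (v : ℝ) ^ (-(9 / 10 : ℝ)))) :=
          mul_le_mul_of_nonneg_left (mul_le_mul_of_nonneg_left h7 h6) hD.le
      _ = Del * (X : ℝ) ^ (9 / 10 : ℝ) * ((G v : ℝ) * (v : ℝ) ^ (-(9 / 10 : ℝ))) := by ring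
      _ ≤ (Q v X : ℝ) := h1
      _ ≤ _ := h8
  · have h1 : (X : ℝ) / (2458 * a) ≤ 1 := by
      rw [div_le_one (by positivity)]
      have : (X : ℝ) ≤ v := by exact_mod_cast hvX.le
      linarith
    have h2 : ((X : ℝ) / (2458 * a)) ^ (9 / 10 : ℝ) ≤ 1 :=
      Real.rpow_le_one (by positivity) h1 (by norm_num)
    have h3 : (1 : ℝ) ≤ (Q a X : ℝ) := by exact_mod_cast Q_pos ha haX
    have h4 : Del ≤ 1 := by unfold Del; norm_num
    have h5 : (0 : ℝ) ≤ ((X : ℝ) / (2458 * a)) ^ (9 / 10 : ℝ) := by positivity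
    nlinarith

end B9
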