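/-! Binary trees of packed tables, for a kernel computation (MP_a4658c_nt, basin exponent). -/

noncomputable section

namespace B9

/-- Binary trees with natural numbers at the leaves. -/
inductive Tr : Type
  | leaf (n : Nat) : Tr
  | node (a b : Tr) : Tr

/-- Look-up: the low bits of the index select the leaf, the rest the 16-bit entry. -/
def Tr.get (t : Tr) : Nat → Nat :=
  Tr.rec (motive := fun _ => Nat → Nat)
    (fun n i => Nat.land (Nat.shiftRight n (Nat.mul 16 i)) 65535)
    (fun _ _ ga gb i => Bool.rec (gb (Nat.div i 2)) (ga (Nat.div i 2)) (Nat.beq (Nat.mod i 2) 0)) t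

end B9
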